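import Mathlib
import Pool.Graph.R_seed8.Y156.L.Defs
import Pool.Agent.H855.CM.LineDefs

/-!
# Products with varieties which satisfy the strong form of the conjecture of Tate: definitions
-/

set_option autoImplicit false

namespace Pool.Agent.H855.TV

open NumberField Module Pool.Agent.Y156.L Pool.Agent.V1168.EV Pool.Agent.H855.CM

/-- The data `X` (Chow ring, correspondences, the whole `ℓ`-adic cohomology with coefficients in `ℂ`; the
field `H1` is not used) have the formal properties of the data of a smooth projective geometrically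
connected variety `X` over the field with `Q` elements, homologically trivial correspondences are
nilpotent (this is the case if the Chow motive of `X` is finite-dimensional in the sense of Kimura), and
`X` satisfies the strong form of the conjecture of Tate: for all `i` the classes of cohomology which
Frobenius multiplies by `Q ^ i` are combinations of the classes of the cycles in the set `S i` of
cycles of codimension `i` (for instance all of them, or the products of `i` divisors), and the
eigenvalue `Q ^ i` is semisimple. -/
structure IsTateVariety (X : AbelianData ℂ) (Q : ℕ) (S : ℕ → Set X.CH) : Prop where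
  chow : IsChowRing X
  cohomology : IsCohomology X
  frobenius : IsFrobenius X Q
  correspondence : IsCorrespondence X
  ample : ∃ h, X.Codim 1 h ∧ X.deg (h ^ X.dim) ≠ 0
  cycles : ∀ i, ∀ x ∈ S i, X.Codim i x
  tate : ∀ (i : ℕ) (a : X.H), X.frobH a = (Q : ℂ) ^ i • a →
    a ∈ Submodule.span ℂ (X.cl '' S i)
  semisimple : ∀ (i : ℕ) (a : X.H), X.frobH (X.frobH a - (Q : ℂ) ^ i • a) =
    (Q : ℂ) ^ i • (X.frobH a - (Q : ℂ) ^ i • a) → X.frobH a = (Q : ℂ) ^ i • a

/-- The number `α` is an eigenvalue of Frobenius on the cohomology of `X`. -/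
def IsRoot (X : AbelianData ℂ) (α : ℂ) : Prop := ∃ a : X.H, a ≠ 0 ∧ X.frobH a = α • a

/-- Up to powers, the Frobenius eigenvalues of `X` are products of powers of conjugates of the
numbers `π j` and of `p`. -/
def IsGenerated (X : AbelianData ℂ) (p : ℕ) {J : Type} [Fintype J] {L : J → Type}
    [∀ j, Field (L j)] [∀ j, NumberField (L j)] (π : ∀ j, L j) : Prop :=
  ∀ α, IsRoot X α → ∃ (N : ℕ) (m : (Σ j, (L j →+* ℂ)) → ℤ) (k : ℤ), 0 < N ∧
    α ^ N = (∏ y, (y.2 (π y.1)) ^ m y) * (p : ℂ) ^ k

/-- The number `α` is supersingular: for all automorphisms `σ` of `ℂ` the `p`-adic absolute values of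
`σ α` and of its complex conjugate are equal. For an eigenvalue of Frobenius on `H^a(X)` this means that
all its slopes are `a / 2`, and also that a power of it is a power of `p`. -/
def IsSupersingular {p : ℕ} [Fact p.Prime] (ν : PadicAlgCl p ≃+* ℂ) (α : ℂ) : Prop :=
  ∀ σ : ℂ ≃+* ℂ, ‖ν.symm (σ α)‖ = ‖ν.symm (starRingEnd ℂ (σ α))‖

/-- All supersingular Frobenius eigenvalues of `X` are powers of `Q` (this is true after a finite
extension of the base field if and only if the cohomology of `X` in the odd degrees has no supersingular
part). -/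
def IsTight {p : ℕ} [Fact p.Prime] (ν : PadicAlgCl p ≃+* ℂ) (X : AbelianData ℂ) (Q : ℕ) : Prop :=
  ∀ α, IsRoot X α → IsSupersingular ν α → ∃ k : ℕ, α = (Q : ℂ) ^ k

/-- The cycles `D t` in the sets `S (c t)` give a basis of the space of the Tate classes on `X`: their
classes are linearly independent, and for all `k` the classes of the `D t` with `c t = k` span the space
of the elements which Frobenius multiplies by `Q ^ k`; and every `k ≤ dim X` is one of the `c t`. -/
structure IsTateBasis (X : AbelianData ℂ) (Q : ℕ) (S : ℕ → Set X.CH) {J : Type} (c : J → ℕ)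
    (D : J → X.CH) : Prop where
  mem : ∀ t, D t ∈ S (c t)
  le : ∀ t, c t ≤ X.dim
  exists_eq : ∀ k ≤ X.dim, ∃ t, c t = k
  indep : LinearIndependent ℂ fun t => X.cl (D t)
  span : ∀ (k : ℕ) (a : X.H), X.frobH a = (Q : ℂ) ^ k • a →
    a ∈ Submodule.span ℂ {b | ∃ t, c t = k ∧ b = X.cl (D t)}

/-- The property `P X Q S` holds for all finite families of Weil numbers `π j` for `p ^ a` (any
`a > 0`), each in one of the fields `K i`, such that no vector in `E` is a combination of the slope
vectors of the `π j`, for all finite fields with `Q = p ^ r` elements, all tight varieties `X` over this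
field whose Frobenius eigenvalues are generated by the `π j`, which satisfy the strong form of the
conjecture of Tate (`IsTateVariety`), with the sets of cycles `S i`. -/
def ForAllTateVarieties {p : ℕ} [Fact p.Prime] (ν : PadicAlgCl p ≃+* ℂ) {I : Type}
    (K : I → Type) [∀ i, Field (K i)] [∀ i, NumberField (K i)] [∀ i, IsCMField (K i)]
    (P : ∀ X : AbelianData ℂ, ℕ → (ℕ → Set X.CH) → Prop)
    (E : Finset (Σ i, ((K i →+* ℂ) → ℝ))) : Prop :=
  ∀ (J : Type) [Fintype J] (b : J → I) (a : ℕ) (π : ∀ j, K (b j)), 0 < a →
    (∀ j, π j * IsCMField.complexConj (K (b j)) (π j) = (p : K (b j)) ^ a) →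
    (∀ e ∈ E, ¬ IsCombination ν a π e.2) →
    ∀ (r : ℕ) (X : AbelianData ℂ) (S : ℕ → Set X.CH), 0 < r → IsTateVariety X (p ^ r) S →
      IsGenerated X p π → IsTight ν X (p ^ r) → P X (p ^ r) S

end Pool.Agent.H855.TV
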