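import Mathlib
import Pool.Agent.H855.TV.Defs
import Pool.Agent.H855.DP.Num
import Pool.Graph.R_seed8.Y156.L.Core

/-!
# The basis of the Tate classes and the dual basis
-/

set_option autoImplicit false
set_option linter.unusedSectionVars false

namespace Pool.Agent.H855.TV

open Module Polynomial Pool.Agent.Y156.L Pool.Agent.H855.DP

variable {X : AbelianData ℂ} {Q : ℕ} {S : ℕ → Set X.CH}

/-- The Frobenius endomorphism, as a linear map. -/
noncomputable abbrev FH (X : AbelianData ℂ) : Module.End ℂ X.H := X.frobH.toLinearMap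

namespace IsTateVariety

variable (hX : IsTateVariety X Q S)

include hX

theorem mul_mem {c d : ℕ} {x y : X.CH} (hx : x ∈ X.codim c) (hy : y ∈ X.codim d) :
    x * y ∈ X.codim (c + d) := hX.chow.mul_mem hx hy

theorem pow_mem {x : X.CH} (hx : x ∈ X.codim 1) (k : ℕ) : x ^ k ∈ X.codim k := by
  induction k with
  | zero => rw [pow_zero]; exact hX.chow.one_mem
  | succ k ih => rw [pow_succ]; exact hX.mul_mem ih hx

theorem nondeg (a : X.H) (h : ∀ b, X.tr (a * b) = 0) : a = 0 := hX.cohomology.nondeg a h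

theorem tr_cl (x : X.CH) : X.tr (X.cl x) = (X.deg x : ℂ) := hX.cohomology.tr_cl x

theorem frob_cl {c : ℕ} {x : X.CH} (hx : x ∈ X.codim c) :
    X.frobH (X.cl x) = (Q : ℂ) ^ c • X.cl x := hX.frobenius.frob_cl hx

theorem act_frob (a : X.H) : X.act X.frob a = X.frobH a := hX.correspondence.act_frob a

theorem act_corr {c d : ℕ} {x y : X.CH} (h : c + d = X.dim) (hx : x ∈ X.codim c)
    (hy : y ∈ X.codim d) (a : X.H) : X.act (X.corr x y) a = X.tr (X.cl x * a) • X.cl y :=
  hX.correspondence.act_corr h hx hy a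

theorem semisimpleAt (i : ℕ) : SemisimpleAt (FH X) ((Q : ℂ) ^ i) := fun a h =>
  hX.semisimple i a h

/-- Poincaré duality for the Tate classes. -/
theorem nondeg_tate (hQ : Q ≠ 0) {i k : ℕ} (hik : i + k = X.dim) {a : X.H}
    (ha : X.frobH a = (Q : ℂ) ^ i • a) (h : ∀ x ∈ S k, X.tr (a * X.cl x) = 0) : a = 0 := by
  have hfin := hX.cohomology.finite
  have hQ0 : (Q : ℂ) ≠ 0 := by exact_mod_cast hQ
  refine hX.nondeg a fun y => ?_
  obtain ⟨P, hP, hGP⟩ := exists_projector (FH X) ((Q : ℂ) ^ k) (hX.semisimpleAt k)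
  let φ : X.H →ₗ[ℂ] ℂ := X.tr.comp (LinearMap.mulLeft ℂ a)
  have h1 : ∀ y, φ (FH X y) = (Q : ℂ) ^ k * φ y := by
    intro y
    have h2 := hX.frobenius.tr_frob (a * y)
    rw [map_mul, ha, smul_mul_assoc, map_smul, smul_eq_mul, ← hik, pow_add, mul_assoc] at h2
    exact mul_left_cancel₀ (pow_ne_zero _ hQ0) h2
  have h3 := functional_aeval (FH X) φ _ h1 P y
  rw [hP, one_mul] at h3
  have h4 : φ y = 0 := by
    rw [← h3]
    have h5 := hX.tate k _ (hGP y)
    generalize aeval (FH X) P y = z at h5
    induction h5 using Submodule.span_induction with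
    | mem z hz =>
      obtain ⟨x, hx, rfl⟩ := hz
      exact h x hx
    | zero => rw [map_zero]
    | add x y _ _ hx hy => rw [map_add, hx, hy, add_zero]
    | smul c x _ hx => rw [map_smul, hx, smul_zero]
  exact h4

/-- The dual system in one codimension. -/
theorem exists_dual_one (hQ : Q ≠ 0) {n k : ℕ} (hnk : n + k = X.dim) :
    ∃ (m : ℕ) (D E : Fin m → X.CH), (∀ t, D t ∈ S n) ∧ (∀ t, E t ∈ X.codim k) ∧
      (∀ t u, X.deg (D t * E u) = if t = u then 1 else 0) ∧
      ∀ a, X.frobH a = (Q : ℂ) ^ n • a → a ∈ Submodule.span ℂ (Set.range fun t => X.cl (D t)) := by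
  classical
  have := hX.cohomology.finite
  obtain ⟨B, hB1, hB2, hB3⟩ := exists_linearIndependent ℂ (X.cl '' S n)
  have hfin : B.Finite := hB3.setFinite
  have hft := hfin.fintype
  let e := Fintype.equivFin B
  have hD : ∀ t : Fin (Fintype.card B), ∃ x, x ∈ S n ∧ (e.symm t : X.H) = X.cl x := fun t => by
    obtain ⟨x, hx, h⟩ := hB1 (e.symm t).2
    exact ⟨x, hx, h.symm⟩
  choose D hDm hDcl using hD
  have hli : LinearIndependent ℂ (fun t => X.cl (D t)) := by
    have h2 : (fun t => X.cl (D t)) = (fun x : B => (x : X.H)) ∘ e.symm := by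
      funext t
      exact (hDcl t).symm
    rw [h2]
    exact hB3.comp _ e.symm.injective
  have hspan : Submodule.span ℂ (X.cl '' S n) ≤
      Submodule.span ℂ (Set.range fun t => X.cl (D t)) := by
    rw [← hB2]
    refine Submodule.span_mono ?_
    intro x hx
    refine ⟨e ⟨x, hx⟩, ?_⟩
    beta_reduce
    rw [← hDcl, Equiv.symm_apply_apply]
  let 𝒮 : Submodule ℚ X.CH := X.codim k
  let ψ : 𝒮 →ₗ[ℚ] (Fin (Fintype.card B) → ℚ) :=
    LinearMap.pi fun t => X.deg ∘ₗ LinearMap.mulLeft ℚ (D t) ∘ₗ 𝒮.subtype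
  have hψ : ∀ E t, ψ E t = X.deg (D t * E) := fun _ _ => rfl
  have hsurj : LinearMap.range ψ = ⊤ := by
    by_contra hne
    obtain ⟨φ, hf0, hf⟩ := Submodule.exists_le_ker_of_lt_top _ (lt_top_iff_ne_top.2 hne)
    apply hf0
    set c : X.H := ∑ t, ((φ (Pi.single t 1) : ℚ) : ℂ) • X.cl (D t) with hc
    set z : X.CH := ∑ t, φ (Pi.single t 1) • D t with hz
    have hcz : c = X.cl z := by
      rw [hc, hz, map_sum]
      exact Finset.sum_congr rfl fun t _ => (cl_smul _ _).symm
    have hzm : z ∈ X.codim n :=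
      Submodule.sum_mem _ fun t _ => Submodule.smul_mem _ _ (hX.cycles n _ (hDm t))
    have hc0 : c = 0 := by
      refine hX.nondeg_tate hQ hnk (by rw [hcz]; exact hX.frob_cl hzm) ?_
      intro E hE
      rw [hcz, ← map_mul, hX.tr_cl]
      have hE' : E ∈ 𝒮 := hX.cycles k _ hE
      have h4 : φ (ψ ⟨E, hE'⟩) = 0 := hf ⟨_, rfl⟩
      have h5 : X.deg (z * E) = φ (ψ ⟨E, hE'⟩) := by
        have h6 : ψ ⟨E, hE'⟩ = ∑ t, X.deg (D t * E) • Pi.single (M := fun _ => ℚ) t 1 := by
          funext t
          rw [hψ, Finset.sum_apply]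
          simp [Pi.single_apply]
        rw [h6, map_sum, hz, Finset.sum_mul, map_sum]
        refine Finset.sum_congr rfl fun t _ => ?_
        rw [smul_mul_assoc, map_smul, map_smul, smul_eq_mul, smul_eq_mul, mul_comm]
      rw [h5, h4, Rat.cast_zero]
    have h2 := Fintype.linearIndependent_iff.1 hli (fun t => ((φ (Pi.single t 1) : ℚ) : ℂ))
      (by rw [← hc, hc0])
    ext t
    have h3 := h2 t
    have h4 : φ (Pi.single t 1) = 0 := by exact_mod_cast h3
    simpa using h4
  have hE : ∀ u, ∃ E : 𝒮, ψ E = Pi.single u 1 := by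
    intro u
    have h2 : (Pi.single u 1 : Fin (Fintype.card B) → ℚ) ∈ LinearMap.range ψ := by
      rw [hsurj]
      exact Submodule.mem_top
    exact h2
  choose E hE using hE
  refine ⟨Fintype.card B, D, fun u => E u, hDm, fun u => (E u).2, fun t u => ?_,
    fun a ha => hspan (hX.tate n a ha)⟩
  rw [← hψ, hE, Pi.single_apply]

/-- The properties of dual systems whose first part spans the Tate classes. -/
theorem basis_of (hQ : 1 < Q) {J : Type} [Fintype J] {c : J → ℕ} {D E : J → X.CH}
    (hdual : IsDual X c D E) (hmem : ∀ t, D t ∈ S (c t))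
    (hsp : ∀ (k : ℕ) (a : X.H), X.frobH a = (Q : ℂ) ^ k • a →
      a ∈ Submodule.span ℂ {b | ∃ t, c t = k ∧ b = X.cl (D t)}) :
    IsTateBasis X Q S c D ∧
      ∀ (k : ℕ) (a : X.H), X.frobH a = (Q : ℂ) ^ k • a →
        a ∈ Submodule.span ℂ {b | ∃ t, X.dim - c t = k ∧ b = X.cl (E t)} := by
  classical
  have hQ0 : Q ≠ 0 := by omega
  refine ⟨⟨hmem, hdual.le, ?_, ?_, hsp⟩, ?_⟩
  · -- all codimensions occur
    intro k hk
    obtain ⟨h, hh1, hh2⟩ := hX.ample
    have hk1 : X.cl (h ^ k) ≠ 0 := by
      intro h3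
      apply hh2
      have h4 : X.tr (X.cl (h ^ X.dim)) = 0 := by
        rw [← Nat.add_sub_cancel' hk, pow_add, map_mul, h3, zero_mul, map_zero]
      rw [hX.tr_cl] at h4
      exact_mod_cast h4
    by_contra h9
    push Not at h9
    have h10 := hsp k _ (hX.frob_cl (hX.pow_mem hh1 k))
    have h11 : {b : X.H | ∃ t, c t = k ∧ b = X.cl (D t)} = ∅ := by
      ext b
      constructor
      · rintro ⟨t, ht, -⟩
        exact h9 t ht
      · intro h
        exact h.elim
    rw [h11, Submodule.span_empty, Submodule.mem_bot] at h10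
    exact hk1 h10
  · -- linear independence
    rw [Fintype.linearIndependent_iff]
    intro g hg u
    have h1 := congrArg (fun x => X.tr (x * X.cl (E u))) hg
    simp only [zero_mul, map_zero, Finset.sum_mul, map_sum, smul_mul_assoc, map_smul,
      smul_eq_mul, ← map_mul, hX.tr_cl] at h1
    rw [Finset.sum_eq_single u] at h1
    · rw [hdual.eq u, Rat.cast_one, mul_one] at h1
      exact h1
    · intro t _ htu
      rw [hdual.ne _ _ htu, Rat.cast_zero, mul_zero]
    · intro h
      exact absurd (Finset.mem_univ u) h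
  · -- the dual basis spans
    intro k a ha
    rcases Nat.lt_or_ge X.dim k with h2 | h2
    · have h3 := hsp k a ha
      have h4 : {b : X.H | ∃ t, c t = k ∧ b = X.cl (D t)} = ∅ := by
        ext b
        constructor
        · rintro ⟨t, ht, -⟩
          have := hdual.le t
          omega
        · intro h
          exact h.elim
      rw [h4, Submodule.span_empty, Submodule.mem_bot] at h3
      rw [h3]
      exact Submodule.zero_mem _
    · set w : X.H := ∑ t ∈ Finset.univ.filter (fun t => X.dim - c t = k),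
          X.tr (a * X.cl (D t)) • X.cl (E t) with hw
      have hwF : X.frobH w = (Q : ℂ) ^ k • w := by
        rw [hw, map_sum, Finset.smul_sum]
        refine Finset.sum_congr rfl fun t ht => ?_
        have h3 := hX.frob_cl (hdual.right t)
        rw [(Finset.mem_filter.1 ht).2] at h3
        rw [map_smul, h3, smul_comm]
      have haw : a = w := by
        rw [← sub_eq_zero]
        refine hX.nondeg_tate hQ0 (i := k) (k := X.dim - k) (by omega)
          (by rw [map_sub, ha, hwF, smul_sub]) ?_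
        intro x hx
        have h5 := hsp (X.dim - k) _ (hX.frob_cl (hX.cycles _ x hx))
        generalize X.cl x = z at h5
        induction h5 using Submodule.span_induction with
        | mem z hz =>
          obtain ⟨t, ht, rfl⟩ := hz
          have ht' : t ∈ Finset.univ.filter (fun t => X.dim - c t = k) := by
            rw [Finset.mem_filter]
            exact ⟨Finset.mem_univ _, by omega⟩
          rw [sub_mul, map_sub, hw, Finset.sum_mul, map_sum, Finset.sum_eq_single_of_mem t ht']
          · rw [smul_mul_assoc, map_smul, ← map_mul, hX.tr_cl, mul_comm (E t), hdual.eq t,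
              Rat.cast_one, smul_eq_mul, mul_one, sub_self]
          · intro u _ hut
            rw [smul_mul_assoc, map_smul, ← map_mul, hX.tr_cl, mul_comm (E u),
              hdual.ne t u (Ne.symm hut), Rat.cast_zero, smul_eq_mul, mul_zero]
        | zero => rw [mul_zero, map_zero]
        | add x y _ _ hx hy => rw [mul_add, map_add, hx, hy, add_zero]
        | smul c x _ hx => rw [mul_smul_comm, map_smul, hx, smul_zero]
      rw [haw, hw]
      refine Submodule.sum_mem _ fun t ht => Submodule.smul_mem _ _ (Submodule.subset_span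
        ⟨t, (Finset.mem_filter.1 ht).2, rfl⟩)

/-- **The dual systems.** -/
theorem exists_dual (hQ : 1 < Q) : ∃ (J : Type) (_ : Fintype J) (c : J → ℕ) (D E : J → X.CH),
    IsTateBasis X Q S c D ∧ IsDual X c D E ∧
      ∀ (k : ℕ) (a : X.H), X.frobH a = (Q : ℂ) ^ k • a →
        a ∈ Submodule.span ℂ {b | ∃ t, X.dim - c t = k ∧ b = X.cl (E t)} := by
  classical
  have hQ0 : Q ≠ 0 := by omega
  choose m D E hD hE hDE hspan using fun n : Fin (X.dim + 1) =>
    hX.exists_dual_one hQ0 (n := n) (k := X.dim - n) (by omega)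
  have hdual : IsDual X (J := Σ n : Fin (X.dim + 1), Fin (m n)) (fun j => j.1)
      (fun j => D j.1 j.2) (fun j => E j.1 j.2) := by
    refine ⟨fun j => by omega, fun j => hX.cycles _ _ (hD j.1 j.2), fun j => hE _ _,
      fun j => by rw [hDE, if_pos rfl], fun i j hij => ?_⟩
    have hDi := hX.cycles _ _ (hD i.1 i.2)
    by_cases h2 : i.1 = j.1
    · obtain ⟨n, t⟩ := i
      obtain ⟨n', u⟩ := j
      dsimp only at h2
      subst h2
      rw [hDE, if_neg]
      intro h3
      dsimp only at h3
      subst h3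
      exact hij rfl
    · refine hX.chow.deg_eq_zero ?_ (hX.mul_mem hDi (hE j.1 j.2))
      intro h3
      apply h2
      apply Fin.ext
      omega
  have hsp : ∀ (k : ℕ) (a : X.H), X.frobH a = (Q : ℂ) ^ k • a →
      a ∈ Submodule.span ℂ {b | ∃ t : Σ n : Fin (X.dim + 1), Fin (m n), (t.1 : ℕ) = k ∧
        b = X.cl (D t.1 t.2)} := by
    intro k a ha
    rcases Nat.lt_or_ge X.dim k with h2 | h2
    · have h3 : X.cl '' S k ⊆ {0} := by
        rintro _ ⟨x, hx, rfl⟩
        rw [hX.chow.top h2 (hX.cycles k x hx), map_zero]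
        rfl
      have h4 := Submodule.span_mono h3 (hX.tate k a ha)
      rw [Submodule.span_zero_singleton, Submodule.mem_bot] at h4
      rw [h4]
      exact Submodule.zero_mem _
    · refine Submodule.span_mono ?_ (hspan ⟨k, by omega⟩ a ha)
      rintro _ ⟨t, rfl⟩
      exact ⟨⟨⟨k, by omega⟩, t⟩, rfl, rfl⟩
  obtain ⟨h1, h2⟩ := hX.basis_of hQ hdual (fun t => hD t.1 t.2) hsp
  exact ⟨_, inferInstance, _, _, _, h1, hdual, h2⟩

end IsTateVariety

end Pool.Agent.H855.TV
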