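import Mathlib
import Pool.Agent.H855.TV.Basis
import Pool.Agent.H855.DP.Arith
import Pool.Graph.R_pool_sql_team_seeded_843ab51a.V1168.EV.Base

/-!
# The Kunneth formula for products with Tate varieties
-/

set_option autoImplicit false
set_option linter.unusedSectionVars false
set_option linter.unusedVariables false

namespace Pool.Agent.H855.TV

open NumberField Module Polynomial Pool.Agent.Y156.L Pool.Agent.V1168.UN Pool.Agent.V1168.EV
  Pool.Agent.H855.CM Pool.Agent.H855.DP

section lin

/-- The image of a polynomial which kills the eigenvalues which are not powers of `Q`. -/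
theorem exists_kill {H : Type} [AddCommGroup H] [Module ℂ H] [Module.Finite ℂ H]
    (F : Module.End ℂ H) (Q : ℕ) (hss : ∀ (i : ℕ) (a : H), F (F a - (Q : ℂ) ^ i • a) =
      (Q : ℂ) ^ i • (F a - (Q : ℂ) ^ i • a) → F a = (Q : ℂ) ^ i • a)
    (h0 : ∀ a, F a = 0 → a = 0)
    (hint : ∀ (α : ℂ) (a : H), a ≠ 0 → F a = α • a → IsIntegral ℚ α)
    (χ : ℚ[X]) (μ : ℚ)
    (hgood : ∀ (α : ℂ) (a : H), a ≠ 0 → F a = α • a → ∀ ρ : ℂ, aeval ρ χ = 0 →
      α * ρ = (μ : ℂ) → ∃ k : ℕ, α = (Q : ℂ) ^ k) :
    ∃ P : ℚ[X], IsCoprime P (rev χ μ) ∧ ∀ w : H, aeval F (P.map (algebraMap ℚ ℂ)) w ∈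
      ⨆ k : ℕ, LinearMap.ker (F - (Q : ℂ) ^ k • (1 : Module.End ℂ H)) := by
  classical
  have hfin : Set.Finite {α : ℂ | F.HasEigenvalue α} := Module.End.finite_hasEigenvalue F
  have heig : ∀ α : ℂ, F.HasEigenvalue α → ∃ a : H, a ≠ 0 ∧ F a = α • a := by
    intro α hα
    obtain ⟨a, ha⟩ := hα.exists_hasEigenvector
    exact ⟨a, ha.2, ha.apply_eq_smul⟩
  let s : Finset ℂ := hfin.toFinset.filter fun α => ¬ ∃ k : ℕ, α = (Q : ℂ) ^ k
  have hs : ∀ α ∈ s, ∃ a : H, a ≠ 0 ∧ F a = α • a := fun α hα =>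
    heig α ((Set.Finite.mem_toFinset hfin).1 (Finset.mem_filter.1 hα).1)
  have hα0 : ∀ α ∈ s, α ≠ 0 := by
    rintro α hα rfl
    obtain ⟨a, ha, hFa⟩ := hs _ hα
    rw [zero_smul] at hFa
    exact ha (h0 a hFa)
  refine ⟨∏ α ∈ s, minpoly ℚ α ^ finrank ℂ H, ?_, fun w => ?_⟩
  · refine IsCoprime.prod_left fun α hα => IsCoprime.pow_left ?_
    obtain ⟨a, ha, hFa⟩ := hs α hα
    have hi := hint α a ha hFa
    rw [(minpoly.irreducible hi).coprime_iff_not_dvd]
    intro hdvd
    have h1 := aeval_eq_zero_of_dvd_aeval_eq_zero hdvd (minpoly.aeval ℚ α)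
    rw [aeval_rev χ μ (hα0 α hα)] at h1
    have h2 := (mul_eq_zero.1 h1).resolve_left (pow_ne_zero _ (hα0 α hα))
    exact (Finset.mem_filter.1 hα).2 (hgood α a ha hFa _ h2 (mul_div_cancel₀ _ (hα0 α hα)))
  · set P : ℚ[X] := ∏ α ∈ s, minpoly ℚ α ^ finrank ℂ H with hP
    set V : Submodule ℂ H := ⨆ k : ℕ, LinearMap.ker (F - (Q : ℂ) ^ k • (1 : Module.End ℂ H))
      with hV
    have key : (⊤ : Submodule ℂ H) ≤ V.comap (aeval F (P.map (algebraMap ℚ ℂ))) := by
      rw [← Module.End.iSup_maxGenEigenspace_eq_top F]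
      refine iSup_le fun α => ?_
      by_cases hα : F.HasEigenvalue α
      · by_cases hk : ∃ k : ℕ, α = (Q : ℂ) ^ k
        · obtain ⟨k, rfl⟩ := hk
          intro a ha
          -- generalized eigenvectors are eigenvectors
          have h1 : ∀ (N : ℕ) (a : H), ((F - algebraMap ℂ _ ((Q : ℂ) ^ k)) ^ N) a = 0 →
              F a = (Q : ℂ) ^ k • a := by
            intro N
            induction N with
            | zero =>
              intro a ha
              rw [pow_zero, Module.End.one_apply] at ha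
              rw [ha, map_zero, smul_zero]
            | succ N ih =>
              intro a ha
              rw [pow_succ, Module.End.mul_apply] at ha
              have h2 := ih _ ha
              rw [LinearMap.sub_apply, Module.algebraMap_end_apply] at h2
              exact hss k a h2
          obtain ⟨N, hN⟩ := (Module.End.mem_maxGenEigenspace F _ a).1 ha
          have h2 : F a = (Q : ℂ) ^ k • a := h1 N a (by
            rw [Algebra.algebraMap_eq_smul_one]
            exact hN)
          refine Submodule.mem_iSup_of_mem k ?_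
          rw [LinearMap.mem_ker, LinearMap.sub_apply, LinearMap.smul_apply,
            Module.End.one_apply, sub_eq_zero, aeval_comm, h2, map_smul]
        · intro a ha
          have hαs : α ∈ s :=
            Finset.mem_filter.2 ⟨(Set.Finite.mem_toFinset hfin).2 hα, hk⟩
          obtain ⟨a', ha', hFa'⟩ := heig α hα
          have hi := hint α a' ha' hFa'
          have h3 : (X - C α : ℂ[X]) ∣ (minpoly ℚ α).map (algebraMap ℚ ℂ) := by
            rw [dvd_iff_isRoot, IsRoot.def, eval_map, ← aeval_def]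
            exact minpoly.aeval ℚ α
          have h4 : (X - C α : ℂ[X]) ^ finrank ℂ H ∣ P.map (algebraMap ℚ ℂ) := by
            rw [hP, Polynomial.map_prod]
            refine (pow_dvd_pow_of_dvd h3 _).trans ?_
            rw [← Polynomial.map_pow]
            exact Finset.dvd_prod_of_mem
              (fun α => (minpoly ℚ α ^ finrank ℂ H).map (algebraMap ℚ ℂ)) hαs
          obtain ⟨R, hR⟩ := h4
          have h5 : aeval F (P.map (algebraMap ℚ ℂ)) a = 0 := by
            rw [hR, mul_comm, map_mul, Module.End.mul_apply, map_pow, map_sub, aeval_X,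
              aeval_C]
            have h6 : ((F - algebraMap ℂ (Module.End ℂ H) α) ^ finrank ℂ H) a = 0 := by
              rw [Module.End.maxGenEigenspace_eq_genEigenspace_finrank,
                Module.End.mem_genEigenspace_nat] at ha
              rw [Algebra.algebraMap_eq_smul_one]
              exact ha
            rw [h6, map_zero]
          change aeval F (P.map (algebraMap ℚ ℂ)) a ∈ V
          rw [h5]
          exact Submodule.zero_mem _
      · intro a ha
        have h1 : ∀ (N : ℕ) (a : H), ((F - α • (1 : Module.End ℂ H)) ^ N) a = 0 → a = 0 := by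
          intro N
          induction N with
          | zero =>
            intro a ha
            rwa [pow_zero, Module.End.one_apply] at ha
          | succ N ih =>
            intro a ha
            rw [pow_succ, Module.End.mul_apply] at ha
            have h2 := ih _ ha
            rw [LinearMap.sub_apply, LinearMap.smul_apply, Module.End.one_apply,
              sub_eq_zero] at h2
            by_contra h3
            exact hα (Module.End.hasEigenvalue_of_hasEigenvector
              (Module.End.hasEigenvector_iff.2 ⟨Module.End.mem_eigenspace_iff.2 h2, h3⟩))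
        obtain ⟨N, hN⟩ := (Module.End.mem_maxGenEigenspace F _ a).1 ha
        rw [h1 N a hN]
        exact Submodule.zero_mem _
    exact key Submodule.mem_top

end lin

section proj

variable {A : AbelianData ℂ} {J : Type} [Fintype J] {c : J → ℕ} {D E : J → A.CH}

theorem act_aeval' (hC : IsCorrespondence A) (P : ℚ[X]) :
    A.act (aeval A.frob P) =
      aeval (A.frobH.toLinearMap : Module.End ℂ A.H) (P.map (algebraMap ℚ ℂ)) := by
  have h1 : A.act A.frob = (A.frobH.toLinearMap : Module.End ℂ A.H) := by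
    ext a
    exact hC.act_frob a
  have h2 : (A.act).comp (algebraMap ℚ A.Corr) =
      (algebraMap ℂ (Module.End ℂ A.H)).comp (algebraMap ℚ ℂ) := Subsingleton.elim _ _
  rw [aeval_def, hom_eval₂, h1, h2, aeval_def, eval₂_map]

/-- **The core.** -/
theorem rel_core' (hC : IsCorrespondence A) {Q : ℕ} {T : RelData A} (hT : IsRel Q T)
    (h : Pool.Agent.Y156.L.IsDual A c D E) (P R : ℚ[X]) (hPR : IsCoprime P R)
    (hkill : ∀ w : A.H, A.act (proj D E) (aeval (A.frobH.toLinearMap : Module.End ℂ A.H)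
      (P.map (algebraMap ℚ ℂ)) w) = aeval (A.frobH.toLinearMap : Module.End ℂ A.H)
        (P.map (algebraMap ℚ ℂ)) w)
    (V : Submodule ℚ T.M) (hV : ∀ m ∈ V, T.act A.frob m ∈ V)
    (hR : ∀ m ∈ V, aeval (T.act A.frob) R m = 0) {m : T.M} (hm : m ∈ V) :
    m = ∑ j, T.times (D j) (T.pair (E j) m) := by
  set F := T.act A.frob with hF
  set Θ : A.Corr := (1 - proj D E) * aeval A.frob P with hΘ
  have hΘ0 : A.act Θ = 0 := by
    ext w
    rw [hΘ, map_mul, map_sub, map_one, Module.End.mul_apply, act_aeval' hC, LinearMap.sub_apply,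
      Module.End.one_apply, hkill, sub_self, LinearMap.zero_apply]
  obtain ⟨n, hn⟩ := hC.nilpotent Θ hΘ0
  -- the operator `Θ`
  have hΘm : ∀ y : T.M, T.act Θ y = aeval F P y - T.act (proj D E) (aeval F P y) := by
    intro y
    rw [hΘ, map_mul, map_sub, map_one, Module.End.mul_apply, LinearMap.sub_apply,
      Module.End.one_apply, aeval_algHom_apply]
  -- `Θ` kills the image of the projector
  have hΘp : ∀ y : T.M, T.act Θ (T.act (proj D E) y) = 0 := by
    intro y
    have h4 : aeval F P (T.act (proj D E) y) = ∑ j, T.times (D j)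
        (P.eval ((Q : ℚ) ^ c j) • T.pair (E j) y) := by
      rw [act_proj hT h, map_sum]
      refine Finset.sum_congr rfl fun j _ => ?_
      rw [map_smul]
      exact aeval_frob_times hT (h.left j) _ P
    rw [hΘm, h4, sub_eq_zero, act_proj hT h]
    refine Finset.sum_congr rfl fun j _ => ?_
    rw [pair_sum hT h]
  obtain ⟨a, b, hab⟩ := hPR
  have haV : ∀ (S : ℚ[X]) (y : T.M), y ∈ V → aeval F S y ∈ V := by
    intro S y hy
    have hpow : ∀ l : ℕ, (F ^ l) y ∈ V := by
      intro l
      induction l with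
      | zero => simpa using hy
      | succ l ih =>
        rw [pow_succ', Module.End.mul_apply]
        exact hV _ ih
    rw [aeval_eq_sum_range, LinearMap.sum_apply]
    exact Submodule.sum_mem _ fun l _ => Submodule.smul_mem _ _ (hpow l)
  have hdiv : ∀ y ∈ V, aeval F P (aeval F a y) = y := by
    intro y hy
    have h5 := congrArg (fun S => aeval F S y) hab
    simp only [map_add, map_mul, map_one, LinearMap.add_apply, Module.End.mul_apply,
      Module.End.one_apply] at h5
    rw [hR y hy, map_zero, add_zero] at h5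
    rw [← Module.End.mul_apply, ← map_mul, mul_comm, map_mul, Module.End.mul_apply]
    exact h5
  have hpow : ∀ (l : ℕ) (y : T.M), y ∈ V → ∃ y', y - T.act (proj D E) y =
      ((T.act Θ) ^ l) y' := by
    intro l
    induction l with
    | zero =>
      intro y _
      exact ⟨_, by rw [pow_zero, Module.End.one_apply]⟩
    | succ l ih =>
      intro y hy
      obtain ⟨y', hy'⟩ := ih (aeval F a y) (haV a y hy)
      refine ⟨y', ?_⟩
      rw [pow_succ', Module.End.mul_apply, ← hy', map_sub, hΘp, sub_zero, hΘm, hdiv y hy]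
  obtain ⟨y', hy'⟩ := hpow n m hm
  rw [← map_pow, hn, map_zero, LinearMap.zero_apply, sub_eq_zero, act_proj hT h] at hy'
  exact hy'

end proj

section core

variable {X : AbelianData ℂ} {Q : ℕ} {S : ℕ → Set X.CH}

/-- The projector is the identity on the Tate classes. -/
theorem act_proj_tate (hX : IsTateVariety X Q S) {J : Type} [Fintype J] {c : J → ℕ}
    {D E : J → X.CH} (h : Pool.Agent.Y156.L.IsDual X c D E)
    (hsp : ∀ (k : ℕ) (a : X.H), X.frobH a = (Q : ℂ) ^ k • a →
      a ∈ Submodule.span ℂ {b | ∃ t, c t = k ∧ b = X.cl (D t)}) {w : X.H}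
    (hw : w ∈ ⨆ k : ℕ, LinearMap.ker (FH X - (Q : ℂ) ^ k • (1 : Module.End ℂ X.H))) :
    X.act (proj D E) w = w := by
  classical
  have h1 : ∀ l, X.act (proj D E) (X.cl (D l)) = X.cl (D l) := by
    intro l
    rw [proj, map_sum, LinearMap.sum_apply, Finset.sum_eq_single l]
    · rw [hX.act_corr (Nat.sub_add_cancel (h.le l)) (h.right l) (h.left l), ← map_mul, hX.tr_cl,
        mul_comm, h.eq, Rat.cast_one, one_smul]
    · intro j _ hj
      rw [hX.act_corr (Nat.sub_add_cancel (h.le j)) (h.right j) (h.left j), ← map_mul, hX.tr_cl,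
        mul_comm, h.ne l j (Ne.symm hj), Rat.cast_zero, zero_smul]
    · intro h2
      exact absurd (Finset.mem_univ _) h2
  have h2 : (⨆ k : ℕ, LinearMap.ker (FH X - (Q : ℂ) ^ k • (1 : Module.End ℂ X.H))) ≤
      LinearMap.ker (X.act (proj D E) - 1) := by
    refine iSup_le fun k a ha => ?_
    rw [LinearMap.mem_ker, LinearMap.sub_apply, LinearMap.smul_apply, Module.End.one_apply,
      sub_eq_zero] at ha
    have h3 : Submodule.span ℂ {b | ∃ t, c t = k ∧ b = X.cl (D t)} ≤
        LinearMap.ker (X.act (proj D E) - 1) := by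
      refine Submodule.span_le.2 ?_
      rintro _ ⟨j, -, rfl⟩
      change X.cl (D j) ∈ LinearMap.ker (X.act (proj D E) - 1)
      rw [LinearMap.mem_ker, LinearMap.sub_apply, h1, Module.End.one_apply, sub_self]
    exact h3 (hsp k a ha)
  have h3 := h2 hw
  rw [LinearMap.mem_ker, LinearMap.sub_apply, Module.End.one_apply, sub_eq_zero] at h3
  exact h3

/-- The core property, for a property `R` of complex numbers. -/
def HasCore (R : ℂ → Prop) (X : AbelianData ℂ) (Q : ℕ) (S : ℕ → Set X.CH) : Prop :=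
  ∃ (J : Type) (_ : Fintype J) (c : J → ℕ) (D E : J → X.CH), IsTateBasis X Q S c D ∧
    Pool.Agent.Y156.L.IsDual X c D E ∧ Q ≠ 0 ∧
    ∀ (j : ℤ) (χ : ℚ[X]), χ ≠ 0 → (∀ ρ : ℂ, aeval ρ χ = 0 → R ρ) →
      ∃ P : ℚ[X], IsCoprime P (rev χ ((Q : ℚ) ^ j)) ∧
        (∀ w : X.H, X.act (proj D E) (aeval (X.frobH.toLinearMap : Module.End ℂ X.H)
          (P.map (algebraMap ℚ ℂ)) w) = aeval (X.frobH.toLinearMap : Module.End ℂ X.H)
            (P.map (algebraMap ℚ ℂ)) w) ∧
        ∀ w : X.H, X.act (proj E D) (aeval (X.frobH.toLinearMap : Module.End ℂ X.H)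
          (P.map (algebraMap ℚ ℂ)) w) = aeval (X.frobH.toLinearMap : Module.End ℂ X.H)
            (P.map (algebraMap ℚ ℂ)) w

theorem hasCore_of {R : ℂ → Prop} (hX : IsTateVariety X Q S) (hQ : 1 < Q)
    (hint : ∀ α, IsRoot X α → IsIntegral ℚ α)
    (hgood : ∀ α, IsRoot X α → ∀ ρ, R ρ → ∀ j : ℤ, α * ρ = (Q : ℂ) ^ j →
      ∃ k : ℕ, α = (Q : ℂ) ^ k) : HasCore R X Q S := by
  have hfin := hX.cohomology.finite
  have hQ0 : (Q : ℂ) ≠ 0 := by
    have : Q ≠ 0 := by omega
    exact_mod_cast this
  obtain ⟨J, hJ, c, D, E, hb, hdual, hE⟩ := hX.exists_dual hQ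
  refine ⟨J, hJ, c, D, E, hb, hdual, by omega, fun j χ hχ hroot => ?_⟩
  obtain ⟨P, hP, hPk⟩ := exists_kill (FH X) Q (fun i a h => hX.semisimple i a h)
    (fun a ha => by
      refine hX.nondeg a fun b => ?_
      have h1 := hX.frobenius.tr_frob (a * b)
      have h2 : X.frobH a = 0 := ha
      rw [map_mul, h2, zero_mul, map_zero] at h1
      exact (mul_eq_zero.1 h1.symm).resolve_left (pow_ne_zero _ hQ0))
    (fun α a ha h => hint α ⟨a, ha, h⟩) χ ((Q : ℚ) ^ j)
    (fun α a ha h ρ hρ hαρ => hgood α ⟨a, ha, h⟩ ρ (hroot ρ hρ) j (by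
      rw [hαρ]
      push_cast
      rfl))
  exact ⟨P, hP, fun w => act_proj_tate hX hdual hb.span (hPk w),
    fun w => act_proj_tate hX hdual.symm hE (hPk w)⟩

/-- The property of the theories. -/
def HasClasses (p : ℕ) (Ω : Finset ℂ) (X : AbelianData ℂ) (Q : ℕ) (S : ℕ → Set X.CH) : Prop :=
  ∃ (J : Type) (_ : Fintype J) (c : J → ℕ) (D E : J → X.CH), IsTateBasis X Q S c D ∧
    Pool.Agent.Y156.L.IsDual X c D E ∧ Q ≠ 0 ∧
      ∀ T : RelData X, IsRel Q T → FrobeniusFrom p Ω T →
        Expands Q T D E ∧ Expands Q T E D ∧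
        (PreservesDegrees T → ExpandsGen Q T D E ∧ ExpandsGen Q T E D)

theorem hasClasses_of {p : ℕ} {Ω : Finset ℂ} (hC : IsCorrespondence X)
    (h : HasCore (From p Ω) X Q S) : HasClasses p Ω X Q S := by
  obtain ⟨J, hJ, c, D, E', hF, hdual, hQ, hcore⟩ := h
  refine ⟨J, hJ, c, D, E', hF, hdual, hQ, fun T hT hK => ?_⟩
  have hmain : ∀ (j : ℤ) (χ : ℚ[X]), χ ≠ 0 → (∀ ρ : ℂ, aeval ρ χ = 0 → From p Ω ρ) →
      ∀ (V : Submodule ℚ T.M) (N : ℕ), (∀ m ∈ V, T.act X.frob m ∈ V) →
        (∀ m ∈ V, aeval (T.act X.frob) ((rev χ ((Q : ℚ) ^ j)) ^ N) m = 0) →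
        ∀ m ∈ V, m = ∑ t, T.times (D t) (T.pair (E' t) m) ∧
          m = ∑ t, T.times (E' t) (T.pair (D t) m) := by
    intro j χ hχ hroot V N hV hR m hm
    obtain ⟨P, hP, hP1, hP2⟩ := hcore j χ hχ hroot
    exact ⟨rel_core' hC hT hdual P _ hP.pow_right hP1 _ hV hR hm,
      rel_core' hC hT hdual.symm P _ hP.pow_right hP2 _ hV hR hm⟩
  have hinv : ∀ (i j : ℤ) (m : T.M), T.InvM Q i j m →
      m = ∑ t, T.times (D t) (T.pair (E' t) m) ∧ m = ∑ t, T.times (E' t) (T.pair (D t) m) := by
    intro i j m hm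
    obtain ⟨χ, hχ, hrank, hkill⟩ := hK i j
    have hkill' : ∀ m ∈ invSub T Q i j, aeval T.frobM χ m = 0 := fun m hm => hkill m hm.1
    have hV1 : ∀ m ∈ invSub T Q i j, T.frobM m ∈ invSub T Q i j :=
      fun m hm => inv_frob hT hm
    have hV2 : ∀ m ∈ invSub T Q i j, T.act X.frob (T.frobM m) =
        (Q : ℚ) ^ j • m := fun m hm => hm.2
    have hV : ∀ m ∈ invSub T Q i j, T.act X.frob m ∈ invSub T Q i j := fun m hm =>
      stable_of _ T.frobM _ _ hV1 hV2 χ
        (coeff_zero_ne' (not_from_zero p Ω) hrank) hkill' hm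
    exact hmain j χ hχ hrank (invSub T Q i j) 1 hV (fun m hm => by
      rw [pow_one]
      exact aeval_rev_op _ T.frobM _ _ hV1 hV2 χ hkill' hm) m hm
  refine ⟨fun i j m hm => (hinv i j m hm).1, fun i j m hm => (hinv i j m hm).2, fun hP => ?_⟩
  have hgen : ∀ (i j : ℤ) (N : ℕ) (m : T.M), T.DegM i j m →
      (fun x => T.app X.frob (T.FM x) - T.scaleM ((Q : ℚ) ^ j) x)^[N] m = 0 →
      m = ∑ t, T.times (D t) (T.pair (E' t) m) ∧ m = ∑ t, T.times (E' t) (T.pair (D t) m) := by
    intro i j N m hm hN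
    obtain ⟨χ, hχ, hrank, hkill⟩ := hK i j
    have hc := commute_frob hT
    set ν := T.act X.frob * T.frobM - algebraMap ℚ _ ((Q : ℚ) ^ j) with hν
    let V : Submodule ℚ T.M := T.grM i j ⊓ LinearMap.ker (ν ^ N)
    have hcν : Commute T.frobM ν :=
      ((hc.symm).mul_right (Commute.refl _)).sub_right (Algebra.commute_algebraMap_right _ _)
    have hVφ : ∀ y ∈ V, T.frobM y ∈ V := by
      intro y hy
      refine ⟨hT.frob_mem hy.1, ?_⟩
      have h1 : (ν ^ N) y = 0 := hy.2
      change (ν ^ N) (T.frobM y) = 0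
      rw [← Module.End.mul_apply, (hcν.symm.pow_left N).eq, Module.End.mul_apply, h1, map_zero]
    have hVν : ∀ y ∈ V, T.act X.frob (T.frobM y) ∈ V := by
      intro y hy
      refine ⟨hP.degM hy.1, ?_⟩
      have h1 : (ν ^ N) y = 0 := hy.2
      change (ν ^ N) (T.act X.frob (T.frobM y)) = 0
      have h2 : Commute (T.act X.frob * T.frobM) ν :=
        (Commute.refl _).sub_right (Algebra.commute_algebraMap_right _ _)
      rw [← Module.End.mul_apply (T.act X.frob), ← Module.End.mul_apply,
        (h2.symm.pow_left N).eq, Module.End.mul_apply, h1, map_zero]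
    have hχ0 : χ.coeff 0 ≠ 0 := coeff_zero_ne' (not_from_zero p Ω) hrank
    have hVF : ∀ y ∈ V, T.act X.frob y ∈ V := by
      intro y hy
      have haV : ∀ S : ℚ[X], aeval T.frobM S y ∈ V := by
        intro S
        have hpow : ∀ l : ℕ, (T.frobM ^ l) y ∈ V := by
          intro l
          induction l with
          | zero => simpa using hy
          | succ l ih =>
            rw [pow_succ', Module.End.mul_apply]
            exact hVφ _ ih
        rw [aeval_eq_sum_range, LinearMap.sum_apply]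
        exact Submodule.sum_mem _ fun l _ => Submodule.smul_mem _ _ (hpow l)
      have h1 : y = T.frobM ((-(χ.coeff 0)⁻¹) • aeval T.frobM χ.divX y) := by
        have h2 := hkill y hy.1
        rw [← divX_mul_X_add χ, mul_comm χ.divX, map_add, aeval_C, map_mul, aeval_X,
          LinearMap.add_apply, Module.End.mul_apply, Module.algebraMap_end_apply] at h2
        have h3 : T.frobM (aeval T.frobM χ.divX y) = -(χ.coeff 0 • y) :=
          eq_neg_of_add_eq_zero_left h2
        rw [map_smul, h3, smul_neg, neg_smul, neg_neg, smul_smul, inv_mul_cancel₀ hχ0, one_smul]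
      rw [h1]
      exact hVν _ (Submodule.smul_mem _ _ (haV _))
    refine hmain j χ hχ hrank V N hVF (fun y hy => ?_) m ⟨hm, ?_⟩
    · exact rev_pow_gen (T.act X.frob) T.frobM hc _ χ V hVF (fun y hy => hkill y hy.1) N
        (fun y hy => hy.2) hy
    · rw [iterate_eq] at hN
      exact hN
  exact ⟨fun i j N m hm hN => (hgen i j N m hm hN).1,
    fun i j N m hm hN => (hgen i j N m hm hN).2⟩

end core

end Pool.Agent.H855.TV
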