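import Mathlib
import Pool.Agent.H855.TV.Core

/-!
# Products with Tate varieties: the arithmetic part
-/

set_option autoImplicit false
set_option linter.unusedSectionVars false
set_option linter.unusedVariables false

namespace Pool.Agent.H855.TV

open NumberField Module Polynomial Pool.Agent.Y156.L Pool.Agent.Y1.CT Pool.Agent.V1168.UN
  Pool.Agent.V1168.EV Pool.Agent.V1168.EF Pool.Agent.H855.CM Pool.Agent.H855.DP

variable {p : ℕ} [Fact p.Prime]

theorem oddLog_addZ {ν : PadicAlgCl p ≃+* ℂ} {α β : ℂ} (hα : α ≠ 0) (hβ : β ≠ 0) {Q : ℕ} {j : ℤ}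
    (h : α * β = (Q : ℂ) ^ j) : oddLog ν α = -oddLog ν β := by
  funext σ
  have h1 : ∀ τ : ℂ ≃+* ℂ, lg ν (τ α) + lg ν (τ β) = lg ν ((Q : ℂ) ^ j) := by
    intro τ
    rw [← lg_mul ((_root_.map_ne_zero τ).2 hα) ((_root_.map_ne_zero τ).2 hβ), ← map_mul, h,
      map_zpow₀, map_natCast]
  have h2 := h1 σ
  have h3 := h1 (σ.trans starRingAut)
  change lg ν (σ α) - lg ν ((σ.trans starRingAut) α) =
    -(lg ν (σ β) - lg ν ((σ.trans starRingAut) β))
  linarith

/-- Numbers generated by algebraic numbers are algebraic. -/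
theorem integral_of {J : Type} [Fintype J] {L : J → Type} [∀ j, Field (L j)]
    [∀ j, NumberField (L j)] (π : ∀ j, L j) {α : ℂ} {N : ℕ} (hN : 0 < N)
    {m : (Σ j, (L j →+* ℂ)) → ℤ} {k : ℤ}
    (h : α ^ N = (∏ y, (y.2 (π y.1)) ^ m y) * (p : ℂ) ^ k) : IsIntegral ℚ α := by
  have h1 : ∀ y : Σ j, (L j →+* ℂ), y.2 (π y.1) ∈ algebraicClosure ℚ ℂ := by
    intro y
    rw [mem_algebraicClosure_iff]
    have h2 : IsIntegral ℚ (π y.1) := Algebra.IsIntegral.isIntegral _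
    exact (h2.map (y.2.toRatAlgHom)).isAlgebraic
  have h2 : α ^ N ∈ algebraicClosure ℚ ℂ := by
    rw [h]
    refine mul_mem (prod_mem fun y _ => zpow_mem (h1 y) _) (zpow_mem ?_ _)
    exact natCast_mem _ p
  rw [mem_algebraicClosure_iff] at h2
  exact h2.isIntegral.of_pow hN

/-- **The core property outside of the exceptional vectors.** -/
theorem hasCore_tate {I : Type} {ν : PadicAlgCl p ≃+* ℂ} {K : I → Type}
    [∀ i, Field (K i)] [∀ i, NumberField (K i)] [∀ i, IsCMField (K i)] {Ω : Finset ℂ}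
    {E : Finset (Σ i, ((K i →+* ℂ) → ℝ))} (h : Pool.Agent.H855.CM.Core ν K Ω E) {J : Type}
    [Fintype J] {b : J → I} {a : ℕ} {π : ∀ j, K (b j)}
    (hπ : ∀ j, π j * IsCMField.complexConj (K (b j)) (π j) = (p : K (b j)) ^ a)
    (hcomb : ∀ e ∈ E, ¬ IsCombination ν a π e.2) {r : ℕ} (hr : 0 < r) {X : AbelianData ℂ}
    {S : ℕ → Set X.CH} (hX : IsTateVariety X (p ^ r) S) (hgen : IsGenerated X p π)
    (htight : IsTight ν X (p ^ r)) : HasCore (From p Ω) X (p ^ r) S := by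
  have hp1 := (Fact.out : p.Prime).one_lt
  have hQ : 1 < p ^ r := Nat.one_lt_pow hr.ne' hp1
  have hQ0 : ((p ^ r : ℕ) : ℂ) ≠ 0 := by
    have : p ^ r ≠ 0 := by omega
    exact_mod_cast this
  refine hasCore_of hX hQ (fun α hα => ?_) (fun α hα ρ hρ j hαρ => ?_)
  · obtain ⟨N, e, k, hN, hrel⟩ := hgen α hα
    exact integral_of π hN hrel
  · have hαρ0 : α * ρ ≠ 0 := by
      rw [hαρ]
      exact zpow_ne_zero _ hQ0
    have hα0 : α ≠ 0 := left_ne_zero_of_mul hαρ0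
    have hρ0 : ρ ≠ 0 := right_ne_zero_of_mul hαρ0
    obtain ⟨N, e, k, hN, hrel⟩ := hgen α hα
    have h1 := relMap_generated (ν := ν) hπ hrel
    have h2 := oddLog_addZ (ν := ν) hα0 hρ0 hαρ
    have h3 : relMap (slopes ν a π)
        (fun y => (e y : ℚ) - (e (Pool.Agent.V1168.EV.bar y) : ℚ)) =
          (2 * N : ℚ) • oddLog ν ρ := by
      rw [h1, h2, smul_neg, neg_smul, neg_neg]
    have h4 := h J b a π hcomb ρ hρ _ _ (fun y => by
      simp only [bar_bar]
      ring) h3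
    have hN' : (2 * N : ℚ) ≠ 0 := by
      have : (N : ℚ) ≠ 0 := Nat.cast_ne_zero.2 hN.ne'
      positivity
    have h5 : oddLog ν ρ = 0 := by
      rw [h3] at h4
      exact (smul_eq_zero.1 h4).resolve_left hN'
    have h6 : oddLog ν α = 0 := by rw [h2, h5, neg_zero]
    exact htight α hα (supersingular_of hα0 h6)

/-- **The general theorem.** -/
theorem forAll_of_core {I : Type} {ν : PadicAlgCl p ≃+* ℂ} {K : I → Type}
    [∀ i, Field (K i)] [∀ i, NumberField (K i)] [∀ i, IsCMField (K i)] {Ω : Finset ℂ}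
    {E : Finset (Σ i, ((K i →+* ℂ) → ℝ))} (h : Pool.Agent.H855.CM.Core ν K Ω E)
    {P : ∀ X : AbelianData ℂ, ℕ → (ℕ → Set X.CH) → Prop}
    (hP : ∀ (X : AbelianData ℂ) (Q : ℕ) (S : ℕ → Set X.CH), IsTateVariety X Q S →
      HasCore (From p Ω) X Q S → P X Q S) : ForAllTateVarieties ν K P E := by
  intro J _ b a π ha hπ hcomb r X S hr hX hgen htight
  exact hP X _ S hX (hasCore_tate h hπ hcomb hr hX hgen htight)

theorem exists_forAll {I : Type} (ν : PadicAlgCl p ≃+* ℂ) (K : I → Type) [∀ i, Field (K i)]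
    [∀ i, NumberField (K i)] [∀ i, IsCMField (K i)] (w : I → ℕ) (hw : ∀ i, IsWeight (K i) (w i))
    (Ω : Finset ℂ) (P : ∀ X : AbelianData ℂ, ℕ → (ℕ → Set X.CH) → Prop)
    (hP : ∀ (X : AbelianData ℂ) (Q : ℕ) (S : ℕ → Set X.CH), IsTateVariety X Q S →
      HasCore (From p Ω) X Q S → P X Q S) :
    ∃ E : Finset (Σ i, ((K i →+* ℂ) → ℝ)), IsSmall w Ω E ∧ ForAllTateVarieties ν K P E := by
  obtain ⟨E, hE, h⟩ := exists_core ν K w hw Ω
  exact ⟨E, hE, forAll_of_core h hP⟩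

end Pool.Agent.H855.TV
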