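import Mathlib
import Pool.Agent.H855.TV.Defs
import Pool.Graph.R_pool_sql_team_seeded_843ab51a.V1168.EV.Props
import Pool.Graph.R_pool_sql_team_seeded_843ab51a.V1168.UN.Diag

/-!
# Cycle class maps for products with Tate varieties: definitions

In the definitions of the library (`RelData` and the following ones) the Tate variety `X` is called `A`.
-/

set_option autoImplicit false

namespace Pool.Agent.H855.TV

open Pool.Agent.Y156.L Pool.Agent.V1168.UN Pool.Agent.V1168.EV

section

variable (p : ℕ) (Ω : Finset ℂ) (X : AbelianData ℂ) (Q : ℕ)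

/-- `CycleMapTimes p Ω X Q`: for all `T` (Chow groups) and `R` (`ℓ`-adic homology or cohomology) relative
to any scheme `U`, with the formal properties, and the cycle class map from `T` to `R`, where the
Frobenius endomorphism of `X × U` acts in the usual way on the Chow groups and the one of `U` comes from
`Ω` on the groups of `T` and `R` in the bidegrees `(2 c, c)`, and all `c`: the cycle class map of `X × U`
in codimension `c` is a bijection onto the Frobenius invariants if and only if those of `U` in the
codimensions `c - k`, `0 ≤ k ≤ dim X`, are. -/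
def CycleMapTimes : Prop :=
  ∀ (T R : RelData X) (ρ : Regulator T R), IsRel Q T → IsPureDiag T Q → DiagFrom p Ω T →
    IsRel Q R → DiagFrom p Ω R → IsRegulator ρ → ∀ c : ℤ,
      CycleMapBijectiveM ρ Q c ↔ ∀ k : ℕ, k ≤ X.dim → CycleMapBijectiveN ρ Q (c - k)

/-- `CycleMapSemisimpleTimes p Ω X Q`: in the situation of `CycleMapTimes` (with Frobenius
endomorphisms which preserve the degrees of `R`), for all `c`: the cycle class map of `X × U` in
codimension `c` is a bijection onto the Frobenius invariants and the eigenvalue `Q ^ c` of Frobenius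
on `H^(2 c)` is semisimple, if and only if the same is true for `U` in the codimensions `c - k`,
`0 ≤ k ≤ dim X`. And without any assumption on Chow groups: the eigenvalue `Q ^ c` of Frobenius is
semisimple on `H^(2 c)(X × U)` if and only if the eigenvalues `Q ^ (c - k)` on `H^(2 (c - k))(U)` are,
`0 ≤ k ≤ dim X`. -/
def CycleMapSemisimpleTimes : Prop :=
  ∀ R : RelData X, IsRel Q R → PreservesDegrees R → DiagFrom p Ω R → ∀ c : ℤ,
    (SemisimpleM R Q (2 * c) c ↔
      ∀ k : ℕ, k ≤ X.dim → SemisimpleN R Q (2 * (c - k)) (c - k)) ∧
    ∀ (T : RelData X) (ρ : Regulator T R), IsRel Q T → IsPureDiag T Q → DiagFrom p Ω T →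
      IsRegulator ρ →
      ((CycleMapBijectiveM ρ Q c ∧ SemisimpleM R Q (2 * c) c) ↔
        ∀ k : ℕ, k ≤ X.dim → CycleMapBijectiveN ρ Q (c - k) ∧
          SemisimpleN R Q (2 * (c - k)) (c - k))

end

end Pool.Agent.H855.TV
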