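import Mathlib
import Pool.Agent.H855.TV.Defs
import Pool.Graph.R_pool_sql_team_seeded_843ab51a.V1168.EV.Props
import Pool.Graph.R_pool_sql_team_seeded_843ab51a.V1168.UN.Props

/-!
# Higher Chow groups and cohomology for products with Tate varieties: properties

In the definitions of the library (`RelData` and the following ones) the Tate variety `X` is called `A`.
-/

set_option autoImplicit false

namespace Pool.Agent.H855.TV

open Pool.Agent.Y156.L Pool.Agent.V1168.UN Pool.Agent.V1168.EV

section

variable (p : ℕ) (Ω : Finset ℂ) (X : AbelianData ℂ) (Q : ℕ) (S : ℕ → Set X.CH)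

/-- `TateHigher p Ω X Q S`: there are finitely many cycles `D t` in `S (c t)` which give a basis of the
Tate classes on `X`, such that for all `R` (cohomology) relative to any scheme `U`, with the formal
properties and Frobenius eigenvalues that come from `Ω`: the Kunneth formula holds, and for all `T`
(motivic cohomology) relative to `U` with a regulator to `R`, and all `i`, `j`, the regulator of
`X × U` in bidegree `(i, j)` is onto the Frobenius invariants if and only if those of `U` in the
bidegrees `(i - 2 k, j - k)`, `0 ≤ k ≤ dim X`, are. -/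
def TateHigher : Prop :=
  ∃ (J : Type) (_ : Fintype J) (c : J → ℕ) (D : J → X.CH), IsTateBasis X Q S c D ∧
    ∀ R : RelData X, IsRel Q R → FrobeniusFrom p Ω R → R.Kunneth Q c D ∧
      ∀ (T : RelData X) (ρ : Regulator T R), IsRel Q T → IsRegulator ρ →
        ∀ i j : ℤ, OntoM ρ Q i j ↔ ∀ k : ℕ, k ≤ X.dim → OntoN ρ Q (i - 2 * k) (j - k)

/-- `BeilinsonHigher p Ω X Q S`: there are finitely many cycles `D t` in `S (c t)` which give a basis of
the Tate classes on `X`, such that for all `T` (motivic cohomology) relative to any scheme `U`, with the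
formal properties, pure and with Frobenius eigenvalues that come from `Ω`: the Kunneth formula holds, and
for all `R` (cohomology) relative to `U` with a regulator from `T` to `R`, and all `i`, `j`, the regulator
of `X × U` in bidegree `(i, j)` is injective if and only if those of `U` in the bidegrees
`(i - 2 k, j - k)`, `0 ≤ k ≤ dim X`, are. -/
def BeilinsonHigher : Prop :=
  ∃ (J : Type) (_ : Fintype J) (c : J → ℕ) (D : J → X.CH), IsTateBasis X Q S c D ∧
    ∀ T : RelData X, IsRel Q T → T.IsPure Q → FrobeniusFrom p Ω T → T.Kunneth Q c D ∧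
      ∀ (R : RelData X) (ρ : Regulator T R), IsRel Q R → IsRegulator ρ →
        ∀ i j : ℤ, InjectiveM ρ i j ↔ ∀ k : ℕ, k ≤ X.dim → InjectiveN ρ (i - 2 * k) (j - k)

/-- `ParshinHigher p Ω X Q S`: there are finitely many cycles `D t` in `S (c t)` which give a basis of the
Tate classes on `X`, such that for all `T` (motivic cohomology) relative to any scheme `Z`, with the
formal properties, pure and with Frobenius eigenvalues that come from `Ω`: the Kunneth formula holds, and
for all `i`, `j` the group `H^i(X × Z, j)` is zero if and only if the groups `H^(i - 2 k)(Z, j - k)`,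
`0 ≤ k ≤ dim X`, are zero. -/
def ParshinHigher : Prop :=
  ∃ (J : Type) (_ : Fintype J) (c : J → ℕ) (D : J → X.CH), IsTateBasis X Q S c D ∧
    ∀ T : RelData X, IsRel Q T → T.IsPure Q → FrobeniusFrom p Ω T → T.Kunneth Q c D ∧
      ∀ i j : ℤ, (∀ m, T.DegM i j m → m = 0) ↔
        ∀ k : ℕ, k ≤ X.dim → ∀ n, T.DegN (i - 2 * k) (j - k) n → n = 0

/-- `PerfectHigher p Ω X Q S`: there are finitely many cycles `D t` in `S (c t)` which give a basis of the
Tate classes on `X`, such that for all `T` (motivic cohomology) relative to any smooth projective scheme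
`Z` of any dimension `d`, with the formal properties, pure and with Frobenius eigenvalues that come from
`Ω`: the Kunneth formula holds, and for all `i`, `j` the cup product pairing
`H^i(X × Z, j) × H^(2 (dim X + d) - i)(X × Z, dim X + d - j) → ℚ` is perfect if and only if the
pairings `H^(i - 2 k)(Z, j - k) × H^(2 d - (i - 2 k))(Z, d - (j - k)) → ℚ`, `0 ≤ k ≤ dim X`, are
perfect. -/
def PerfectHigher : Prop :=
  ∃ (J : Type) (_ : Fintype J) (c : J → ℕ) (D : J → X.CH), IsTateBasis X Q S c D ∧
    ∀ T : RelData X, IsRel Q T → T.IsPure Q → FrobeniusFrom p Ω T → T.Kunneth Q c D ∧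
      ∀ B : CupProduct T, IsCupProduct B → ∀ d i j : ℤ, PerfectM B (X.dim + d) i j ↔
        ∀ k : ℕ, k ≤ X.dim → PerfectN B d (i - 2 * k) (j - k)

/-- `SemisimpleHigher p Ω X Q S`: for all `R` (cohomology) relative to any scheme `U`, with the formal
properties and Frobenius eigenvalues that come from `Ω`, and all `i`, `j`: the eigenvalue `Q ^ j` of
Frobenius on `H^i(X × U, j)` is semisimple if and only if the eigenvalues `Q ^ (j - k)` on
`H^(i - 2 k)(U, j - k)`, `0 ≤ k ≤ dim X`, are. -/
def SemisimpleHigher : Prop :=
  ∀ R : RelData X, IsRel Q R → PreservesDegrees R → FrobeniusFrom p Ω R →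
    ∀ i j : ℤ, SemisimpleM R Q i j ↔
      ∀ k : ℕ, k ≤ X.dim → SemisimpleN R Q (i - 2 * k) (j - k)

/-- `TateBeilinsonHigher p Ω X Q S`: for all `T` (motivic homology or cohomology) and `R` (`ℓ`-adic
homology or cohomology) relative to any scheme `U`, with the formal properties, `T` pure, both with
Frobenius eigenvalues that come from `Ω`, and a regulator from `T` to `R`, and all `i`, `j`: the regulator
of `X × U` in bidegree `(i, j)` is a bijection onto the Frobenius invariants and the eigenvalue `Q ^ j`
of Frobenius on `R^i(X × U, j)` is semisimple, if and only if the same is true for `U` in the bidegrees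
`(i - 2 k, j - k)`, `0 ≤ k ≤ dim X`. -/
def TateBeilinsonHigher : Prop :=
  ∀ (T R : RelData X) (ρ : Regulator T R), IsRel Q T → T.IsPure Q → FrobeniusFrom p Ω T →
    IsRel Q R → PreservesDegrees R → FrobeniusFrom p Ω R → IsRegulator ρ → ∀ i j : ℤ,
      (BijectiveM ρ Q i j ∧ SemisimpleM R Q i j) ↔ ∀ k : ℕ, k ≤ X.dim →
        BijectiveN ρ Q (i - 2 * k) (j - k) ∧ SemisimpleN R Q (i - 2 * k) (j - k)

end

end Pool.Agent.H855.TV
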