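import Mathlib
import Pool.Graph.R_seed8.Y156.L.Thms
import Pool.Graph.R_pool_sql_team_seeded_843ab51a.V1168.UN.Thms

/-!
# The equivalences for all dual systems

The theorems of the library (`Pool.Agent.Y156.L.Thms`, `Pool.Agent.V1168.UN.Thms`) for arbitrary dual
systems instead of systems of products of divisors; the proofs are the same.
-/

set_option autoImplicit false
set_option linter.unusedSectionVars false
set_option linter.unusedVariables false

namespace Pool.Agent.H855.TV

open Module Polynomial Pool.Agent.Y156.L Pool.Agent.V1168.UN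

section

variable {K : Type} [Field K] [CharZero K] {A : AbelianData K} {J : Type} [Fintype J]
  {c : J → ℕ} {D E : J → A.CH} {Q : ℕ}

theorem tate_iff (hF : ∀ k ≤ A.dim, ∃ t, c t = k) (h : Pool.Agent.Y156.L.IsDual A c D E) (hQ : Q ≠ 0) {T R : RelData A}
    (hT : IsRel Q T) (hR : IsRel Q R) {ρ : Regulator T R} (hc : IsRegulator ρ)
    (hexp : ∀ (i j : ℤ) (m : R.M), R.InvM Q i j m → m = ∑ t, R.times (D t) (R.pair (E t) m))
    (i j : ℤ) : OntoM ρ Q i j ↔
      ∀ k : ℕ, k ≤ A.dim → OntoN ρ Q (i - 2 * k) (j - k) := by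
  constructor
  · intro h0 k hk w hw
    obtain ⟨t, rfl⟩ := hF k hk
    have h1 := inv_times hQ hR (h.left t) hw
    rw [sub_add_cancel, sub_add_cancel] at h1
    obtain ⟨m, hm1, hm2⟩ := h0 _ h1
    change ρ.cM m = _ at hm2
    refine ⟨T.pair (E t) m, hT.pair_mem (by have := h.le t; omega) (h.right t) hm1, ?_⟩
    change ρ.cN (T.pair (E t) m) = w
    classical
    rw [reg_push hc, hm2, dualpair hR h t t w, if_pos rfl]
  · intro h0 w hw
    have h1 := fun t => inv_pair hQ hR h hw (hexp i j w hw) t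
    choose n hn1 hn2 using fun t => h0 (c t) (h.le t) _ (h1 t)
    refine ⟨∑ t, T.times (D t) (n t), ?_, ?_⟩
    · change _ ∈ T.grM i j
      refine Submodule.sum_mem _ fun t _ => ?_
      have h2 := hT.times_mem (h.left t) (hn1 t)
      rwa [sub_add_cancel, sub_add_cancel] at h2
    · change ρ.cM _ = w
      rw [map_sum]
      conv_rhs => rw [hexp i j w hw]
      refine Finset.sum_congr rfl fun t _ => ?_
      have h3 : ρ.cN (n t) = R.pair (E t) w := hn2 t
      rw [reg_mul hc, h3]

theorem beilinson_iff (hF : ∀ k ≤ A.dim, ∃ t, c t = k) (h : Pool.Agent.Y156.L.IsDual A c D E) {T R : RelData A}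
    (hT : IsRel Q T) {ρ : Regulator T R} (hc : IsRegulator ρ)
    (hexp : ∀ (i j : ℤ), ∀ m ∈ T.grM i j, m = ∑ t, T.times (D t) (T.pair (E t) m))
    (i j : ℤ) : InjectiveM ρ i j ↔
      ∀ k : ℕ, k ≤ A.dim → InjectiveN ρ (i - 2 * k) (j - k) := by
  constructor
  · intro h0 k hk n hn hcn
    change ρ.cN n = 0 at hcn
    obtain ⟨t, rfl⟩ := hF k hk
    have h1 := hT.times_mem (h.left t) hn
    rw [sub_add_cancel, sub_add_cancel] at h1
    have h2 := h0 _ h1 (by change ρ.cM _ = 0; rw [reg_mul hc, hcn, map_zero])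
    classical
    have h3 := dualpair hT h t t n
    rw [h2, map_zero, if_pos rfl] at h3
    exact h3.symm
  · intro h0 m hm hcm
    change ρ.cM m = 0 at hcm
    rw [hexp i j m hm]
    refine Finset.sum_eq_zero fun t _ => ?_
    have h1 : T.pair (E t) m = 0 := by
      refine h0 (c t) (h.le t) _ (hT.pair_mem (by have := h.le t; omega) (h.right t) hm) ?_
      change ρ.cN _ = 0
      rw [reg_push hc, hcm, map_zero]
    rw [h1, map_zero]

theorem parshin_iff (hF : ∀ k ≤ A.dim, ∃ t, c t = k) (h : Pool.Agent.Y156.L.IsDual A c D E) {T : RelData A}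
    (hT : IsRel Q T)
    (hexp : ∀ (i j : ℤ), ∀ m ∈ T.grM i j, m = ∑ t, T.times (D t) (T.pair (E t) m))
    (i j : ℤ) : T.grM i j = ⊥ ↔ ∀ k : ℕ, k ≤ A.dim → T.grN (i - 2 * k) (j - k) = ⊥ := by
  constructor
  · intro h0 k hk
    rw [eq_bot_iff]
    intro n hn
    obtain ⟨t, rfl⟩ := hF k hk
    have h1 := hT.times_mem (h.left t) hn
    rw [sub_add_cancel, sub_add_cancel, h0, Submodule.mem_bot] at h1
    classical
    have h3 := dualpair hT h t t n
    rw [h1, map_zero, if_pos rfl] at h3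
    rw [Submodule.mem_bot]
    exact h3.symm
  · intro h0
    rw [eq_bot_iff]
    intro m hm
    rw [Submodule.mem_bot, hexp i j m hm]
    refine Finset.sum_eq_zero fun t _ => ?_
    have h1 := hT.pair_mem (c := c t) (by have := h.le t; omega) (h.right t) hm
    rw [h0 (c t) (h.le t), Submodule.mem_bot] at h1
    rw [h1, map_zero]

theorem perfect_iff (hF : ∀ k ≤ A.dim, ∃ t, c t = k) (h : Pool.Agent.Y156.L.IsDual A c D E) {T : RelData A} (hT : IsRel Q T)
    {B : CupProduct T} (hB : IsCupProduct B)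
    (hexp : ∀ (i j : ℤ), ∀ m ∈ T.grM i j, m = ∑ t, T.times (D t) (T.pair (E t) m))
    (hexp' : ∀ (i j : ℤ), ∀ m ∈ T.grM i j, m = ∑ t, T.times (E t) (T.pair (D t) m))
    (d i j : ℤ) : PerfectM B (A.dim + d) i j ↔
      ∀ k : ℕ, k ≤ A.dim → PerfectN B d (i - 2 * k) (j - k) := by
  rw [perfect_iff' h hT hB hexp hexp' d i j]
  constructor
  · intro h0 k hk
    obtain ⟨t, rfl⟩ := hF k hk
    exact h0 t
  · intro h0 t
    exact h0 (c t) (h.le t)

theorem semisimple_iff (hF : ∀ k ≤ A.dim, ∃ t, c t = k) (h : Pool.Agent.Y156.L.IsDual A c D E) (hQ : Q ≠ 0)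
    {T : RelData A} (hT : IsRel Q T) (hexp : ExpandsGen Q T D E) (i j : ℤ) :
    SemisimpleM T Q i j ↔ ∀ k : ℕ, k ≤ A.dim → SemisimpleN T Q (i - 2 * k) (j - k) := by
  classical
  have hQ0 : (Q : ℚ) ≠ 0 := by exact_mod_cast hQ
  have hsh : ∀ k : ℕ, (j - k : ℤ) + k = j := fun k => sub_add_cancel _ _
  constructor
  · intro h0 k hk N n hn hN
    obtain ⟨t, rfl⟩ := hF k hk
    have h1 := hT.times_mem (h.left t) hn
    rw [sub_add_cancel, sub_add_cancel] at h1
    rw [iterateN_eq] at hN
    have h2 := op_times hQ hT (h.left t) (j - c t) N n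
    rw [hN, map_zero, smul_zero, hsh] at h2
    have h3 := h0 N _ h1 (by rw [iterate_eq]; exact h2)
    have h4 : T.act A.frob (T.frobM (T.times (D t) n)) = (Q : ℚ) ^ j • T.times (D t) n := h3
    rw [hT.frob_times, hT.act_frob_times _ (h.left t)] at h4
    have h5 := congrArg (T.pair (E t)) h4
    rw [map_smul, map_smul, dualpair hT h t t, dualpair hT h t t, if_pos rfl, if_pos rfl] at h5
    change T.frobN n = (Q : ℚ) ^ (j - c t) • n
    rw [zpow_sub₀ hQ0, zpow_natCast, div_eq_inv_mul, mul_smul, ← h5, smul_smul,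
      inv_mul_cancel₀ (pow_ne_zero _ hQ0), one_smul]
  · intro h0 N m hm hN
    have h1 := hexp i j N m hm hN
    rw [iterate_eq] at hN
    -- the components
    have h2 : ∀ t, T.FN (T.pair (E t) m) = T.scaleN ((Q : ℚ) ^ (j - c t)) (T.pair (E t) m) := by
      intro t
      refine h0 (c t) (h.le t) N _ (hT.pair_mem (by have := h.le t; omega) (h.right t) hm) ?_
      rw [iterateN_eq]
      have h3 : ((T.act A.frob * T.frobM - algebraMap ℚ _ ((Q : ℚ) ^ j)) ^ N) m =
          ∑ l, T.times (D l) (((Q : ℚ) ^ c l) ^ N •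
            ((T.frobN - algebraMap ℚ _ ((Q : ℚ) ^ (j - c l))) ^ N) (T.pair (E l) m)) := by
        conv_lhs => rw [h1]
        rw [map_sum]
        refine Finset.sum_congr rfl fun l _ => ?_
        have h4 := op_times hQ hT (h.left l) (j - c l) N (T.pair (E l) m)
        rw [hsh] at h4
        rw [h4, map_smul]
      rw [hN] at h3
      have h4 := congrArg (T.pair (E t)) h3
      rw [map_zero, pair_sum hT h] at h4
      exact (smul_eq_zero.1 h4.symm).resolve_left (pow_ne_zero _ (pow_ne_zero _ hQ0))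
    change T.act A.frob (T.frobM m) = (Q : ℚ) ^ j • m
    conv_lhs => rw [h1]
    conv_rhs => rw [h1]
    rw [map_sum, map_sum, Finset.smul_sum]
    refine Finset.sum_congr rfl fun l _ => ?_
    have h5 : T.frobN (T.pair (E l) m) = (Q : ℚ) ^ (j - c l) • T.pair (E l) m := h2 l
    rw [hT.frob_times, hT.act_frob_times _ (h.left l), h5, map_smul, smul_smul, ← zpow_natCast,
      ← zpow_add₀ hQ0]
    congr 2
    ring


end

end Pool.Agent.H855.TV
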