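import Mathlib
import Pool.Agent.H855.TV.HigherDefs
import Pool.Agent.H855.TV.Thms
import Pool.Agent.H855.TV.Arith

/-!
# Higher Chow groups and cohomology for products with Tate varieties: proofs
-/

set_option autoImplicit false
set_option linter.unusedSectionVars false
set_option linter.unusedVariables false

namespace Pool.Agent.H855.TV

open Pool.Agent.Y156.L Pool.Agent.V1168.UN Pool.Agent.V1168.EV

variable {p : ℕ} {Ω : Finset ℂ} {X : AbelianData ℂ} {Q : ℕ} {S : ℕ → Set X.CH}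

theorem tateHigher (h : HasClasses p Ω X Q S) : TateHigher p Ω X Q S := by
  obtain ⟨J, hJ, c, D, E', hF, hdual, hQ, hmain⟩ := h
  refine ⟨J, hJ, c, D, hF, fun R hR hK => ?_⟩
  have hexp := (hmain R hR hK).1
  exact ⟨kunneth_of hQ hR hdual hexp, fun T ρ hT hc i j =>
    tate_iff hF.exists_eq hdual hQ hT hR hc hexp i j⟩

theorem beilinsonHigher (h : HasClasses p Ω X Q S) : BeilinsonHigher p Ω X Q S := by
  obtain ⟨J, hJ, c, D, E', hF, hdual, hQ, hmain⟩ := h
  refine ⟨J, hJ, c, D, hF, fun T hT hpure hK => ?_⟩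
  have hexp := (hmain T hT hK).1
  exact ⟨kunneth_of hQ hT hdual hexp, fun R ρ _ hc i j =>
    beilinson_iff hF.exists_eq hdual hT hc (fun i j m hm => hexp i j m (hpure i j m hm)) i j⟩

theorem parshinHigher (h : HasClasses p Ω X Q S) : ParshinHigher p Ω X Q S := by
  obtain ⟨J, hJ, c, D, E', hF, hdual, hQ, hmain⟩ := h
  refine ⟨J, hJ, c, D, hF, fun T hT hpure hK => ?_⟩
  have hexp := (hmain T hT hK).1
  refine ⟨kunneth_of hQ hT hdual hexp, fun i j => ?_⟩
  have h1 := parshin_iff hF.exists_eq hdual hT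
    (fun i j m hm => hexp i j m (hpure i j m hm)) i j
  simp only [Submodule.eq_bot_iff] at h1
  exact h1

theorem perfectHigher (h : HasClasses p Ω X Q S) : PerfectHigher p Ω X Q S := by
  obtain ⟨J, hJ, c, D, E', hF, hdual, hQ, hmain⟩ := h
  refine ⟨J, hJ, c, D, hF, fun T hT hpure hK => ?_⟩
  have hexp := (hmain T hT hK).1
  have hexp' := (hmain T hT hK).2.1
  exact ⟨kunneth_of hQ hT hdual hexp, fun B hB d i j =>
    perfect_iff hF.exists_eq hdual hT hB (fun i j m hm => hexp i j m (hpure i j m hm))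
      (fun i j m hm => hexp' i j m (hpure i j m hm)) d i j⟩

theorem semisimpleHigher (h : HasClasses p Ω X Q S) : SemisimpleHigher p Ω X Q := by
  intro R hR' hP hK i j
  obtain ⟨J, hJ, c, D, E', hF, hdual, hQ, hmain⟩ := h
  exact semisimple_iff hF.exists_eq hdual hQ hR' ((hmain R hR' hK).2.2 hP).1 i j

theorem tateBeilinsonHigher (h : HasClasses p Ω X Q S) : TateBeilinsonHigher p Ω X Q := by
  intro T R ρ hT hpure hKT hR' hP hK hc i j
  obtain ⟨J, hJ, c, D, E', hF, hdual, hQ, hmain⟩ := h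
  have h1 := tate_iff hF.exists_eq hdual hQ hT hR' hc (hmain R hR' hK).1 i j
  have h2 := beilinson_iff hF.exists_eq hdual hT hc
    (fun i j m hm => (hmain T hT hKT).1 i j m (hpure i j m hm)) i j
  have h3 := semisimple_iff hF.exists_eq hdual hQ hR' ((hmain R hR' hK).2.2 hP).1 i j
  unfold BijectiveM BijectiveN
  rw [h1, h2, h3]
  constructor
  · rintro ⟨⟨h4, h5⟩, h6⟩ k hk
    exact ⟨⟨h4 k hk, h5 k hk⟩, h6 k hk⟩
  · intro h4
    exact ⟨⟨fun k hk => (h4 k hk).1.1, fun k hk => (h4 k hk).1.2⟩, fun k hk => (h4 k hk).2⟩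

end Pool.Agent.H855.TV
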