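import Mathlib
import Pool.Agent.H855.TV.Defs
import Pool.Graph.R_pool_sql_team_seeded_843ab51a.V1168.EV.Props
import Pool.Graph.R_pool_sql_team_seeded_843ab51a.V1168.UN.Props
import Pool.Graph.R_pool_sql_team_seeded_2aa45f1a.Q306.FG.GPDefs

/-!
# The cohomology of generic points of products with Tate varieties: properties

In the definitions of the library (`RelData`, `GenericData` and the following ones) the Tate variety `X`
is called `A`.
-/

set_option autoImplicit false

namespace Pool.Agent.H855.TV

open Pool.Agent.Y156.L Pool.Agent.V1168.UN Pool.Agent.V1168.EV Pool.Agent.Q306.FG

section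

variable (p : ℕ) (Ω : Finset ℂ) (X : AbelianData ℂ) (Q : ℕ)

/-- `GenericTimes p Ω X Q`: suppose that the cycles of codimension `0` on `X` are the rational multiples of
`1` (`X` is irreducible). Let `U` be a smooth variety over the field with `Q` elements whose Frobenius
endomorphism satisfies on the cohomology groups `H^i(X × U, j)` nonzero rational polynomials with roots
that come from `Ω`. For all `i`, `j`: the inverse image gives a bijection of the Frobenius invariant
classes of the generic points of `U` and `X × U` which extend to `U` and `X × U`; these classes come from
the higher Chow groups of the function field for `X × U` if and only if they do for `U`; and if all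
invariant classes extend, then question Q1 for `X × U` and `(i, j)` is equivalent to question Q1 for `U`
and `(i, j)`. -/
def GenericTimes : Prop :=
  (∀ x, X.Codim 0 x → ∃ r : ℚ, x = r • (1 : X.CH)) →
    ∀ R : RelData X, IsRel Q R → PreservesDegrees R → FrobeniusFrom p Ω R →
      ∀ G : GenericData R, IsGeneric G → ∀ i j : ℤ,
        PullBijective Q G i j ∧ (ExtendedM Q G i j ↔ ExtendedN Q G i j) ∧
        (AllExtend Q G i j → (QuestionM Q G i j ↔ QuestionN Q G i j))

end

end Pool.Agent.H855.TV
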