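import Mathlib
import Pool.Agent.H855.TV.GenDefs
import Pool.Agent.H855.TV.Arith
import Pool.Graph.R_pool_sql_team_seeded_2aa45f1a.Q306.FG.GPThms

/-!
# The cohomology of generic points of products with Tate varieties: proofs
-/

set_option autoImplicit false
set_option linter.unusedSectionVars false
set_option linter.unusedVariables false

namespace Pool.Agent.H855.TV

open Module Polynomial Pool.Agent.Y156.L Pool.Agent.V1168.UN Pool.Agent.V1168.EV
  Pool.Agent.Q306.FG

variable {p : ℕ} {Ω : Finset ℂ} {X : AbelianData ℂ} {Q : ℕ} {S : ℕ → Set X.CH}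

theorem pull_of_extended (h : HasClasses p Ω X Q S)
    (hone : ∀ x, X.Codim 0 x → ∃ r : ℚ, x = r • (1 : X.CH)) {R : RelData X} (hR : IsRel Q R)
    (hdeg : PreservesDegrees R) (hP : FrobeniusFrom p Ω R) {G : GenericData R}
    (hGen : IsGeneric G) {i j : ℤ} {m : R.M} (hm : R.DegM i j m)
    (hinv : G.frobM (G.resM m) = ((Q : ℚ) ^ j) • G.resM m) :
    ∃ n, R.DegN i j n ∧ G.frobN (G.resN n) = ((Q : ℚ) ^ j) • G.resN n ∧
      G.pull (G.resN n) = G.resM m := by
  obtain ⟨J, hJ, c, D, E', hfam, hdual, hQ, hmain⟩ := h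
  set μ : ℚ := (Q : ℚ) ^ j with hμ
  set Φ : Module.End ℚ R.M := R.act X.frob * R.frobM with hΦ
  have hresΦ : ∀ x : R.M, G.resM (Φ x) = G.frobM (G.resM x) := hGen.restriction.res_frobM
  have hres : ∀ (p : ℚ[X]) (x : R.M), G.resM (aeval Φ p x) = aeval G.frobM p (G.resM x) := by
    intro p
    induction p using Polynomial.induction_on' with
    | add p r hp hr => intro x; rw [map_add, map_add, LinearMap.add_apply, map_add, hp, hr,
        LinearMap.add_apply]
    | monomial k a =>
      intro x
      rw [aeval_monomial, aeval_monomial, Module.End.mul_apply, Module.End.mul_apply,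
        Module.algebraMap_end_apply, Module.algebraMap_end_apply, map_smul]
      congr 1
      induction k with
      | zero => simp
      | succ k ih =>
        have h5 : (Φ ^ (k + 1)) x = Φ ((Φ ^ k) x) := by rw [pow_succ']; rfl
        have h6 : (G.frobM ^ (k + 1)) (G.resM x) = G.frobM ((G.frobM ^ k) (G.resM x)) := by
          rw [pow_succ']; rfl
        rw [h5, h6, hresΦ, ih]
  have hΦdeg : ∀ x ∈ R.grM i j, Φ x ∈ R.grM i j := fun x hx => hdeg.degM hx
  have hpdeg : ∀ (p : ℚ[X]) (x : R.M), x ∈ R.grM i j → aeval Φ p x ∈ R.grM i j := by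
    intro p
    induction p using Polynomial.induction_on' with
    | add p r hp hr => intro x hx; rw [map_add]; exact Submodule.add_mem _ (hp x hx) (hr x hx)
    | monomial k a =>
      intro x hx
      rw [aeval_monomial, Module.End.mul_apply, Module.algebraMap_end_apply]
      refine Submodule.smul_mem _ _ ?_
      induction k with
      | zero => simpa using hx
      | succ k ih => rw [pow_succ', Module.End.mul_apply]; exact hΦdeg _ ih
  obtain ⟨χ, hχ, hkill⟩ := hGen.algebraic i j
  obtain ⟨u, v, N, huv, hN⟩ := exists_split Φ μ hχ (hkill m hm)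
  -- the restriction of the generalized part
  have h1 : G.resM (aeval Φ u m) = G.resM m := by
    have h2 : aeval G.frobM (u + v * (Polynomial.X - C μ)) (G.resM m) = G.resM m := by
      rw [huv, map_one]; rfl
    rw [map_add, LinearMap.add_apply, map_mul, Module.End.mul_apply, map_sub, aeval_X, aeval_C,
      LinearMap.sub_apply, Module.algebraMap_end_apply, hinv, sub_self, map_zero, add_zero] at h2
    rw [hres, h2]
  have hexp := ((hmain R hR hP).2.2 hdeg).1 i j N (aeval Φ u m) (hpdeg u m hm)
    (by rw [iterate_eq]; exact hN)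
  set m' := aeval Φ u m with hm'
  set z : J → R.N := fun t => R.pair (E' t) m' with hz
  have hzdeg : ∀ t, R.DegN (i - 2 * c t) (j - c t) (z t) := fun t =>
    hR.pair_mem (by have := hdual.le t; omega) (hdual.right t) (hpdeg u m hm)
  classical
  have hD0 : ∀ t, ∃ r : ℚ, c t = 0 → D t = r • (1 : X.CH) := by
    intro t
    by_cases ht : c t = 0
    · obtain ⟨r, hr⟩ := hone (D t) (by have := hdual.left t; rwa [ht] at this)
      exact ⟨r, fun _ => hr⟩
    · exact ⟨0, fun h => absurd h ht⟩
  choose r hr using hD0
  set n : R.N := ∑ t ∈ Finset.univ.filter (fun t => c t = 0), r t • z t with hn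
  have hndeg : R.DegN i j n := by
    refine Submodule.sum_mem _ fun t ht => Submodule.smul_mem _ _ ?_
    have h2 : z t ∈ R.grN (i - 2 * c t) (j - c t) := hzdeg t
    rw [(Finset.mem_filter.1 ht).2] at h2
    simpa using h2
  have hmulsmul : ∀ (s : ℚ) (x : X.CH) (y : R.N), R.times (s • x) y = s • R.times x y := by
    intro s x y
    rw [map_smul, LinearMap.smul_apply]
  have hpull : G.pull (G.resN n) = G.resM m := by
    rw [← h1, hexp, hn, map_sum, map_sum, map_sum, ← Finset.sum_filter_add_sum_filter_not
      Finset.univ (fun t => c t = 0) (fun t => G.resM (R.times (D t) (R.pair (E' t) m')))]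
    rw [Finset.sum_eq_zero (s := Finset.univ.filter (fun t => ¬ c t = 0)), add_zero]
    · refine Finset.sum_congr rfl fun t ht => ?_
      rw [hr t (Finset.mem_filter.1 ht).2, hmulsmul, map_smul, map_smul, map_smul]
      congr 1
      exact (hGen.restriction.res_one (z t)).symm
    · intro t ht
      exact hGen.restriction.res_support (z t) (Nat.pos_of_ne_zero (Finset.mem_filter.1 ht).2)
        (hdual.left t)
  refine ⟨n, hndeg, ?_, hpull⟩
  rw [← sub_eq_zero]
  refine hGen.specialization.injective _ ?_
  rw [map_sub, map_smul, hGen.restriction.pull_frob, hpull, hinv, sub_self]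

theorem genericTimes (hX : IsTateVariety X Q S) (h : HasClasses p Ω X Q S) :
    GenericTimes p Ω X Q := by
  intro hone R hR hdeg hP G hGen i j
  have hmul : ∀ n : R.N, R.DegN i j n → R.DegM i j (R.mul 1 n) := by
    intro n hn
    have h1 := hR.graded.mul_mem hX.chow.one_mem hn
    simpa using h1
  have hinvN : ∀ g : G.GN, G.frobN g = ((Q : ℚ) ^ j) • g →
      G.frobM (G.pull g) = ((Q : ℚ) ^ j) • G.pull g := by
    intro g hg
    rw [← hGen.restriction.pull_frob, hg, map_smul]
  have hinj : ∀ g g' : G.GN, G.pull g = G.pull g' → g = g' := by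
    intro g g' h
    rw [← sub_eq_zero] at h ⊢
    exact hGen.specialization.injective _ (by rw [map_sub, h])
  have hiff : ExtendedM Q G i j ↔ ExtendedN Q G i j := by
    constructor
    · intro h n hn hinv
      have h1 := h (R.mul 1 n) (hmul n hn) (by
        rw [hGen.restriction.res_one]
        exact hinvN _ hinv)
      rw [hGen.restriction.res_one] at h1
      exact (hGen.specialization.cycles (hGen.restriction.res_deg hn)).1 h1
    · intro h2 m hm hinv
      obtain ⟨n, hn, hninv, hpull⟩ := pull_of_extended h hone hR hdeg hP hGen hm hinv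
      rw [← hpull]
      exact (hGen.specialization.cycles (hGen.restriction.res_deg hn)).2 (h2 n hn hninv)
  refine ⟨?_, hiff, ?_⟩
  · intro w
    constructor
    · rintro ⟨⟨m, hm, rfl⟩, hinv⟩
      obtain ⟨n, hn, hninv, hpull⟩ := pull_of_extended h hone hR hdeg hP hGen hm hinv
      refine ⟨G.resN n, ⟨⟨⟨n, hn, rfl⟩, hninv⟩, hpull⟩, ?_⟩
      rintro g' ⟨-, hg'⟩
      exact hinj _ _ (hg'.trans hpull.symm)
    · rintro ⟨g, ⟨⟨⟨n, hn, rfl⟩, hninv⟩, hpull⟩, -⟩
      refine ⟨⟨R.mul 1 n, hmul n hn, ?_⟩, ?_⟩
      · rw [hGen.restriction.res_one, hpull]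
      · rw [← hpull]
        exact hinvN _ hninv
  · rintro ⟨hN, hM⟩
    have h1 : QuestionM Q G i j ↔ ExtendedM Q G i j := by
      constructor
      · intro h m hm hinv
        exact h _ (hGen.restriction.res_degM hm) hinv
      · intro h g hg hinv
        obtain ⟨m, hm, rfl⟩ := hM g hg hinv
        exact h m hm hinv
    have h2 : QuestionN Q G i j ↔ ExtendedN Q G i j := by
      constructor
      · intro h n hn hinv
        exact h _ (hGen.restriction.res_deg hn) hinv
      · intro h g hg hinv
        obtain ⟨n, hn, rfl⟩ := hN g hg hinv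
        exact h n hn hinv
    rw [h1, h2, hiff]

end Pool.Agent.H855.TV
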