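import Mathlib
import Pool.Agent.H855.TV.Core
import Pool.Graph.R_pool_sql_team_seeded_843ab51a.V1168.BB.Int
import Pool.Graph.R_pool_sql_team_seeded_843ab51a.V1168.EV.IntDefs
import Pool.Graph.R_pool_sql_team_seeded_843ab51a.H8EM.Main
import Pool.Graph.R_pool_sql_team_seeded_843ab51a.H8EM.Nr

/-!
# Integral theories of products with Tate varieties

The proofs are those of the library (`Pool.Agent.V1168.BB.int_core`, `Pool.Agent.V1168.EV.fgEquiv`,
`Pool.Agent.H8EM.fgProduct`, `Pool.Agent.H8EM.unramifiedEquiv`), for the dual systems of Tate varieties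
instead of those of products of divisors on abelian varieties.
-/

set_option autoImplicit false
set_option linter.unusedSectionVars false
set_option linter.unusedVariables false

namespace Pool.Agent.H855.TV

open Module Polynomial Pool.Agent.Y156.L Pool.Agent.V1168.UN Pool.Agent.V1168.BB
  Pool.Agent.V1168.EV Pool.Agent.H8EM

section

variable {A : AbelianData ℂ} {Z : IntegralData A} {T : IntTheory Z}
  {J : Type} [Fintype J] {c : J → ℕ} {D E : J → A.CH} {D' E' : J → Z.CHZ} {N₀ Q : ℕ}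

/-- The cohomological action of the integral projector. -/
theorem act_toCorr_projZ (hA : IsCorrespondence A)
    (hZ : IsIntegralData Z) (h : Pool.Agent.Y156.L.IsDual A c D E)
    (hD : ∀ t, Z.toCH (D' t) = N₀ • D t) (hE : ∀ t, Z.toCH (E' t) = N₀ • E t) (v : A.H) :
    A.act (Z.toCorr (projZ D' E')) v = ((N₀ : ℂ) ^ 2) • A.act (proj D E) v := by
  have hsm : ∀ x : A.CH, A.cl (N₀ • x) = (N₀ : ℂ) • A.cl x := by
    intro x
    rw [map_nsmul, Nat.cast_smul_eq_nsmul]
  unfold projZ proj
  rw [map_sum, map_sum, LinearMap.sum_apply, map_sum, LinearMap.sum_apply, Finset.smul_sum]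
  refine Finset.sum_congr rfl fun t _ => ?_
  rw [hZ.corr, hD, hE, hA.act_corr (Nat.sub_add_cancel (h.le t))
    (Submodule.smul_of_tower_mem _ _ (h.right t)) (Submodule.smul_of_tower_mem _ _ (h.left t)),
    hA.act_corr (Nat.sub_add_cancel (h.le t)) (h.right t) (h.left t), hsm, hsm,
    smul_mul_assoc, map_smul, smul_eq_mul, smul_smul, smul_smul]
  congr 1
  ring

/-- **The core, with integral coefficients.** -/
theorem int_core (hA : IsCorrespondence A)
    (hZ : IsIntegralData Z) (hG : IsIntGraded T) (hT : IsIntAction T Q)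
    (h : Pool.Agent.Y156.L.IsDual A c D E) (hN₀ : N₀ ≠ 0)
    (hcD : ∀ t, D' t ∈ Z.cod (c t)) (hcE : ∀ t, E' t ∈ Z.cod (A.dim - c t))
    (hD : ∀ t, Z.toCH (D' t) = N₀ • D t) (hE : ∀ t, Z.toCH (E' t) = N₀ • E t)
    (P : ℚ[X]) (R' : ℤ[X]) (hPR : IsCoprime P (R'.map (Int.castRingHom ℚ)))
    (hkill : ∀ w : A.H, A.act (proj D E) (aeval (A.frobH.toLinearMap : Module.End ℂ A.H)
      (P.map (algebraMap ℚ ℂ)) w) = aeval (A.frobH.toLinearMap : Module.End ℂ A.H)
        (P.map (algebraMap ℚ ℂ)) w)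
    (V : AddSubgroup T.M) (hV : ∀ m ∈ V, T.act Z.frobZ m ∈ V)
    (hR : ∀ m ∈ V, aeval (actZ T Z.frobZ) R' m = 0) :
    ∃ B b : ℤ, B ≠ 0 ∧ ∀ m ∈ V, B • m = b • ∑ t, T.times (D' t) (T.pair (E' t) m) := by
  classical
  obtain ⟨s', P', hs', hP'⟩ := exists_int P
  obtain ⟨a, b, N₄, hN₄, hab⟩ := bezout_int hs' hP' hPR
  set F : Module.End ℤ T.M := actZ T Z.frobZ with hF
  set p : Module.End ℤ T.M := actZ T (projZ D' E') with hp
  set Θ : Z.CorrZ := ((N₀ ^ 2 : ℕ) - projZ D' E') * aeval Z.frobZ P' with hΘ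
  -- `Θ` is homologically trivial
  have hΘ0 : A.act (Z.toCorr Θ) = 0 := by
    have h1 : Z.toCorr (aeval Z.frobZ P') = aeval A.frob P' := by
      rw [← hZ.frob]
      exact (aeval_algHom_apply Z.toCorr.toIntAlgHom Z.frobZ P').symm
    have h2 : A.act (aeval A.frob P') =
        aeval (A.frobH.toLinearMap : Module.End ℂ A.H) P' := by
      have h3 : A.act A.frob = (A.frobH.toLinearMap : Module.End ℂ A.H) :=
        LinearMap.ext fun a => hA.act_frob a
      rw [← h3]
      exact (aeval_algHom_apply A.act.toIntAlgHom A.frob P').symm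
    have h4 : aeval (A.frobH.toLinearMap : Module.End ℂ A.H) P' =
        (s' : ℂ) • aeval (A.frobH.toLinearMap : Module.End ℂ A.H) (P.map (algebraMap ℚ ℂ)) := by
      rw [← map_smul]
      have h5 : (s' : ℂ) • P.map (algebraMap ℚ ℂ) = P'.map (Int.castRingHom ℂ) := by
        have h6 : P'.map (Int.castRingHom ℂ) =
            (P'.map (Int.castRingHom ℚ)).map (algebraMap ℚ ℂ) := by
          rw [Polynomial.map_map]
          congr 1
        rw [h6, hP', Polynomial.map_smul]
        congr 1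
      rw [h5, aeval_def, aeval_def, eval₂_map]
      congr 1
      exact Subsingleton.elim _ _
    ext w
    rw [hΘ, map_mul, map_mul, Module.End.mul_apply, h1, h2, h4, map_sub, map_natCast, map_sub,
      map_natCast, LinearMap.sub_apply, act_toCorr_projZ hA hZ h hD hE, LinearMap.smul_apply,
      map_smul (A.act (proj D E)), hkill, LinearMap.zero_apply, Module.End.natCast_apply,
      ← Nat.cast_smul_eq_nsmul ℂ]
    push_cast
    rw [sub_self]
  obtain ⟨n, hn⟩ := hA.nilpotent _ hΘ0
  obtain ⟨N₃, hN₃, hN₃'⟩ := hZ.torsion (Θ ^ n) (by rw [map_pow, hn])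
  have hpm : ∀ m, p m = ∑ t, T.times (D' t) (T.pair (E' t) m) := by
    intro m
    rw [hp]
    exact act_projZ hT h.le hcD hcE m
  -- the operator `Θ`
  have hΘm : ∀ y : T.M, actZ T Θ y = (N₀ ^ 2) • aeval F P' y - p (aeval F P' y) := by
    intro y
    rw [hΘ, map_mul, map_sub, map_natCast, Module.End.mul_apply, LinearMap.sub_apply,
      Module.End.natCast_apply, ← aeval_actZ]
  have hfix : ∀ z : J → T.N, p (∑ t, T.times (D' t) (z t)) =
      (N₀ ^ 2) • ∑ t, T.times (D' t) (z t) := by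
    intro z
    rw [hpm, Finset.smul_sum]
    refine Finset.sum_congr rfl fun t _ => ?_
    rw [pair_sum_int hZ hG h hD hE, map_nsmul]
  have hΘp : ∀ y : T.M, actZ T Θ (p y) = 0 := by
    intro y
    have h4 : aeval F P' (p y) = ∑ t, T.times (D' t)
        (P'.eval ((Q : ℤ) ^ c t) • T.pair (E' t) y) := by
      rw [hpm, map_sum]
      refine Finset.sum_congr rfl fun t _ => ?_
      exact aeval_frob_times_int hT (hcD t) _ P'
    rw [hΘm, h4, hfix, sub_self]
  have haV : ∀ (S : ℤ[X]) (y : T.M), y ∈ V → aeval F S y ∈ V := by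
    intro S y hy
    have hpow : ∀ l : ℕ, (F ^ l) y ∈ V := by
      intro l
      induction l with
      | zero => simpa using hy
      | succ l ih =>
        rw [pow_succ', Module.End.mul_apply]
        exact hV _ ih
    rw [aeval_eq_sum_range, LinearMap.sum_apply]
    exact AddSubgroup.sum_mem _ fun l _ => AddSubgroup.zsmul_mem _ (hpow l) _
  have hdiv : ∀ y ∈ V, aeval F P' (aeval F a y) = N₄ • y := by
    intro y hy
    have h5 := congrArg (fun S => aeval F S y) hab
    simp only [map_add, map_mul, LinearMap.add_apply, Module.End.mul_apply, aeval_C,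
      Module.algebraMap_end_apply] at h5
    have h6 : aeval F R' (aeval F b y) = 0 := hR _ (haV b y hy)
    rw [h6, add_zero] at h5
    exact h5
  have hpow : ∀ (l : ℕ) (y : T.M), y ∈ V → ∃ y',
      ((N₄ * (N₀ : ℤ) ^ 2) ^ l) • ((N₀ ^ 2) • y - p y) = ((actZ T Θ) ^ l) y' := by
    intro l
    induction l with
    | zero =>
      intro y _
      exact ⟨_, by rw [pow_zero, one_smul, pow_zero, Module.End.one_apply]⟩
    | succ l ih =>
      intro y hy
      obtain ⟨y', hy'⟩ := ih (aeval F a y) (haV a y hy)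
      refine ⟨y', ?_⟩
      have h8 : actZ T Θ (((N₄ * (N₀ : ℤ) ^ 2) ^ l) •
          ((N₀ ^ 2) • aeval F a y - p (aeval F a y))) =
          ((N₄ * (N₀ : ℤ) ^ 2) ^ (l + 1)) • ((N₀ ^ 2) • y - p y) := by
        rw [map_zsmul, map_sub, map_nsmul, hΘp, sub_zero, hΘm, hdiv y hy, map_zsmul, pow_succ]
        simp only [← natCast_zsmul]
        push_cast
        module
      rw [← h8, hy', pow_succ' (actZ T Θ) l, Module.End.mul_apply]
  refine ⟨N₃ * ((N₄ * (N₀ : ℤ) ^ 2) ^ n) * (N₀ : ℤ) ^ 2, N₃ * ((N₄ * (N₀ : ℤ) ^ 2) ^ n), ?_,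
    fun m hm => ?_⟩
  · have h9 : (N₀ : ℤ) ≠ 0 := Int.natCast_ne_zero.2 hN₀
    exact mul_ne_zero (mul_ne_zero (Int.natCast_ne_zero.2 hN₃)
      (pow_ne_zero _ (mul_ne_zero hN₄ (pow_ne_zero _ h9)))) (pow_ne_zero _ h9)
  · obtain ⟨y', hy'⟩ := hpow n m hm
    have h10 : (N₃ : ℤ) • ((actZ T Θ) ^ n) y' = 0 := by
      rw [← map_pow, natCast_zsmul, ← LinearMap.smul_apply, ← map_nsmul, hN₃', map_zero,
        LinearMap.zero_apply]
    rw [← hy'] at h10
    have h11 : (N₃ * ((N₄ * (N₀ : ℤ) ^ 2) ^ n)) • ((N₀ ^ 2) • m - p m) = 0 := by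
      rw [mul_smul, h10]
    rw [smul_sub, sub_eq_zero] at h11
    rw [← hpm, ← h11, ← natCast_zsmul, mul_smul]
    push_cast
    rfl


end

section

variable {R : ℂ → Prop} {A : AbelianData ℂ} {Q : ℕ} {S : ℕ → Set A.CH}

/-- **Finite generation for products.** -/
theorem fgProduct (hA : IsCorrespondence A) (hcore : HasCore R A Q S) {Z : IntegralData A}
    {T : IntTheory Z} (hT : IsEtaleTheory T Q) (hK : FrobeniusRoots T R) : FGProduct T := by
  classical
  obtain ⟨J, hJ, c, D, E, hF, hdual, hQ, hmain⟩ := hcore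
  obtain ⟨N₀, D', E', hN₀, hcD, hcE, hD, hE⟩ := exists_lifts hT.data hdual
  have hG := hT.graded
  have hAc := hT.action
  intro i n
  obtain ⟨χ, hχ, hroot, hkill⟩ := hK i n
  -- the polynomials
  obtain ⟨P, hP, hPk, -⟩ := hmain n (χ.map (Int.castRingHom ℚ)) (by
    rw [Ne, Polynomial.map_eq_zero_iff (RingHom.injective_int _)]
    exact hχ) (fun ρ hρ => hroot ρ (by
      rw [aeval_def, eval₂_map] at hρ
      rw [aeval_def, ← hρ]
      rfl))
  have hμ : ((Q : ℚ)) ^ (n : ℤ) = ((((Q : ℤ) ^ n : ℤ)) : ℚ) := by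
    push_cast
    rw [zpow_natCast]
  rw [hμ, ← map_revZ] at hP
  have hrel : ∀ m ∈ T.grM i n, aeval (actZ T Z.frobZ) (revZ χ ((Q : ℤ) ^ n)) m = 0 := by
    intro m hm
    refine aeval_revZ_op (actZ T Z.frobZ) (frobL T) (T.grM i n) _ (fun m hm => hG.FM_mem hm)
      (fun m hm => ?_) χ (fun m hm => ?_) hm
    · have h1 : T.act Z.frobZ (T.frobM m) = (Q) ^ n • m := hAc.pure hm
      rw [actZ_apply, frobL_apply, h1, ← natCast_zsmul]
      push_cast
      rfl
    · rw [aeval_frobL]
      exact hkill m hm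
  obtain ⟨B, b, hB, hBb⟩ := int_core hA hT.data hG hAc hdual hN₀ hcD hcE hD hE P _ hP hPk
    (T.grM i n) (fun m hm => hG.app_mem hm) hrel
  constructor
  · intro h k hk
    rw [fgM_iff] at h
    rw [fgN_iff]
    obtain ⟨t, rfl⟩ := hF.exists_eq k hk
    have hmem : ∀ x : T.grN (i - 2 * c t) (n - c t), T.times (D' t) (x : T.N) ∈ T.grM i n := by
      intro x
      have h1 := hG.mul_mem (hcD t) x.2
      rw [show i - 2 * (c t : ℤ) + 2 * c t = i by ring, sub_add_cancel] at h1
      exact h1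
    let φ : T.grN (i - 2 * c t) (n - c t) →+ T.grM i n :=
      ((T.times (D' t)).comp (AddSubgroup.subtype _)).codRestrict _ hmem
    refine fg_of_map φ ?_
    have hfin := (hT.finite.finiteN (i - 2 * c t) (n - c t) (N₀ ^ 2) (pow_ne_zero _ hN₀)).to_subtype
    refine Finite.of_injective (β := {x | x ∈ T.grN (i - 2 * c t) (n - c t) ∧ (N₀ ^ 2) • x = 0})
      (fun x => ⟨((x : T.grN (i - 2 * c t) (n - c t)) : T.N), x.1.2, ?_⟩) ?_
    · have h1 : T.times (D' t) ((x : T.grN (i - 2 * c t) (n - c t)) : T.N) = 0 :=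
        congrArg Subtype.val x.2
      have h2 := pair_times_int hT.data hG hdual hD hE t t
        ((x : T.grN (i - 2 * c t) (n - c t)) : T.N)
      rw [h1, map_zero, if_pos rfl] at h2
      exact h2.symm
    · intro x y hxy
      have hxy' := congrArg Subtype.val hxy
      exact Subtype.ext (Subtype.ext hxy')
  · intro h
    rw [fgM_iff]
    have hfinN : ∀ t, Module.Finite ℤ (T.grN (i - 2 * c t) (n - c t)) :=
      fun t => fgN_iff.1 (h (c t) (hdual.le t))
    have hmem : ∀ (t : J) (x : T.grM i n),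
        T.pair (E' t) (x : T.M) ∈ T.grN (i - 2 * c t) (n - c t) := by
      intro t x
      exact hG.push_mem (by have := hdual.le t; omega) (hcE t) x.2
    let φ : T.grM i n →+ ∀ t, T.grN (i - 2 * c t) (n - c t) :=
      { toFun := fun x t => ⟨T.pair (E' t) x, hmem t x⟩
        map_zero' := by
          funext t
          apply Subtype.ext
          exact map_zero _
        map_add' := by
          intro x y
          funext t
          apply Subtype.ext
          exact map_add _ _ _ }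
    refine fg_of_map φ ?_
    have hB' : B.natAbs ≠ 0 := Int.natAbs_ne_zero.2 hB
    have hfin := (hT.finite.finiteM i n B.natAbs hB').to_subtype
    refine Finite.of_injective (β := {x | x ∈ T.grM i n ∧ B.natAbs • x = 0})
      (fun x => ⟨((x : T.grM i n) : T.M), x.1.2, ?_⟩) ?_
    · have h1 : ∀ t, T.pair (E' t) ((x : T.grM i n) : T.M) = 0 := fun t =>
        congrArg Subtype.val (congrFun (x.2 : φ (x : T.grM i n) = 0) t)
      have h2 := hBb _ (x : T.grM i n).2
      simp only [h1, map_zero, Finset.sum_const_zero, smul_zero] at h2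
      rcases Int.natAbs_eq B with hB2 | hB2
      · rw [hB2, natCast_zsmul] at h2
        exact h2
      · rw [hB2, neg_smul, natCast_zsmul, neg_eq_zero] at h2
        exact h2
    · intro x y hxy
      have hxy' := congrArg Subtype.val hxy
      exact Subtype.ext (Subtype.ext hxy')

/-- **Finite generation for products.** -/
theorem fgEquiv {p : ℕ} {Ω : Finset ℂ} (hA : IsCorrespondence A)
    (hcore : HasCore (From p Ω) A Q S) {Z : IntegralData A} {T : IntTheory Z}
    (hT : IsIntTheory T Q) (hK : IntFrom T p Ω) : FGEquiv T := by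
  classical
  obtain ⟨J, hJ, c, D, E, hF, hdual, hQ, hmain⟩ := hcore
  obtain ⟨N₀, D', E', hN₀, hcD, hcE, hD, hE⟩ := exists_lifts hT.data hdual
  have hG := hT.graded
  have hAc := hT.action
  intro i j
  rcases lt_or_ge j 0 with hj | hj
  · have h1 : FGM T i j := by
      unfold FGM
      rw [(hT.finite.neg hj).2]
      exact fg_bot'
    refine ⟨fun _ k _ => ?_, fun _ => h1⟩
    unfold FGN
    rw [(hT.finite.neg (i := i - 2 * k) (j := j - k) (by omega)).1]
    exact fg_bot'
  obtain ⟨n, rfl⟩ := Int.eq_ofNat_of_zero_le hj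
  obtain ⟨χ, hχ, hroot, hkill⟩ := hK i n
  -- the polynomials
  obtain ⟨P, hP, hPk, -⟩ := hmain n (χ.map (Int.castRingHom ℚ)) (by
    rw [Ne, Polynomial.map_eq_zero_iff (RingHom.injective_int _)]
    exact hχ) (fun ρ hρ => hroot ρ (by
      rw [aeval_def, eval₂_map] at hρ
      rw [aeval_def, ← hρ]
      rfl))
  have hμ : ((Q : ℚ)) ^ (n : ℤ) = ((((Q : ℤ) ^ n : ℤ)) : ℚ) := by
    push_cast
    rw [zpow_natCast]
  rw [hμ, ← map_revZ] at hP
  have hrel : ∀ m ∈ T.grM i n, aeval (actZ T Z.frobZ) (revZ χ ((Q : ℤ) ^ n)) m = 0 := by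
    intro m hm
    refine aeval_revZ_op (actZ T Z.frobZ) (frobL T) (T.grM i n) _ (fun m hm => hG.FM_mem hm)
      (fun m hm => ?_) χ (fun m hm => ?_) hm
    · have h1 : T.act Z.frobZ (T.frobM m) = (Q) ^ n • m := hAc.pure hm
      rw [actZ_apply, frobL_apply, h1, ← natCast_zsmul]
      push_cast
      rfl
    · rw [aeval_frobL]
      exact hkill m hm
  obtain ⟨B, b, hB, hBb⟩ := int_core hA hT.data hG hAc hdual hN₀ hcD hcE hD hE P _ hP hPk
    (T.grM i n) (fun m hm => hG.app_mem hm) hrel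
  constructor
  · intro h k hk
    rw [fgM_iff] at h
    rw [fgN_iff]
    obtain ⟨t, rfl⟩ := hF.exists_eq k hk
    have hmem : ∀ x : T.grN (i - 2 * c t) (n - c t), T.times (D' t) (x : T.N) ∈ T.grM i n := by
      intro x
      have h1 := hG.mul_mem (hcD t) x.2
      rw [show i - 2 * (c t : ℤ) + 2 * c t = i by ring, sub_add_cancel] at h1
      exact h1
    let φ : T.grN (i - 2 * c t) (n - c t) →+ T.grM i n :=
      ((T.times (D' t)).comp (AddSubgroup.subtype _)).codRestrict _ hmem
    refine fg_of_map φ ?_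
    have hfin := (hT.finite.finiteN (i - 2 * c t) (n - c t) (N₀ ^ 2) (pow_ne_zero _ hN₀)).to_subtype
    refine Finite.of_injective (β := {x | x ∈ T.grN (i - 2 * c t) (n - c t) ∧ (N₀ ^ 2) • x = 0})
      (fun x => ⟨((x : T.grN (i - 2 * c t) (n - c t)) : T.N), x.1.2, ?_⟩) ?_
    · have h1 : T.times (D' t) ((x : T.grN (i - 2 * c t) (n - c t)) : T.N) = 0 :=
        congrArg Subtype.val x.2
      have h2 := pair_times_int hT.data hG hdual hD hE t t
        ((x : T.grN (i - 2 * c t) (n - c t)) : T.N)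
      rw [h1, map_zero, if_pos rfl] at h2
      exact h2.symm
    · intro x y hxy
      have hxy' := congrArg Subtype.val hxy
      exact Subtype.ext (Subtype.ext hxy')
  · intro h
    rw [fgM_iff]
    have hfinN : ∀ t, Module.Finite ℤ (T.grN (i - 2 * c t) (n - c t)) :=
      fun t => fgN_iff.1 (h (c t) (hdual.le t))
    have hmem : ∀ (t : J) (x : T.grM i n),
        T.pair (E' t) (x : T.M) ∈ T.grN (i - 2 * c t) (n - c t) := by
      intro t x
      exact hG.push_mem (by have := hdual.le t; omega) (hcE t) x.2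
    let φ : T.grM i n →+ ∀ t, T.grN (i - 2 * c t) (n - c t) :=
      { toFun := fun x t => ⟨T.pair (E' t) x, hmem t x⟩
        map_zero' := by
          funext t
          apply Subtype.ext
          exact map_zero _
        map_add' := by
          intro x y
          funext t
          apply Subtype.ext
          exact map_add _ _ _ }
    refine fg_of_map φ ?_
    have hB' : B.natAbs ≠ 0 := Int.natAbs_ne_zero.2 hB
    have hfin := (hT.finite.finiteM i n B.natAbs hB').to_subtype
    refine Finite.of_injective (β := {x | x ∈ T.grM i n ∧ B.natAbs • x = 0})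
      (fun x => ⟨((x : T.grM i n) : T.M), x.1.2, ?_⟩) ?_
    · have h1 : ∀ t, T.pair (E' t) ((x : T.grM i n) : T.M) = 0 := fun t =>
        congrArg Subtype.val (congrFun (x.2 : φ (x : T.grM i n) = 0) t)
      have h2 := hBb _ (x : T.grM i n).2
      simp only [h1, map_zero, Finset.sum_const_zero, smul_zero] at h2
      rcases Int.natAbs_eq B with hB2 | hB2
      · rw [hB2, natCast_zsmul] at h2
        exact h2
      · rw [hB2, neg_smul, natCast_zsmul, neg_eq_zero] at h2
        exact h2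
    · intro x y hxy
      have hxy' := congrArg Subtype.val hxy
      exact Subtype.ext (Subtype.ext hxy')

/-- The integral decomposition, up to bounded torsion. -/
theorem exists_formula (hA : IsCorrespondence A) (hcore : HasCore R A Q S) {Z : IntegralData A}
    {T : IntTheory Z} (hZ : IsIntegralData Z) (hG : IsIntGraded T) (hAc : IsIntAction T Q) :
    ∃ (J : Type) (_ : Fintype J) (c : J → ℕ) (D E : J → Z.CHZ) (N₀ : ℕ), N₀ ≠ 0 ∧
      (∀ t, c t ≤ A.dim) ∧ (∀ k ≤ A.dim, ∃ t, c t = k) ∧ (∀ t, D t ∈ Z.cod (c t)) ∧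
      (∀ t, E t ∈ Z.cod (A.dim - c t)) ∧ (∀ t (x : T.N), T.pair (E t) (T.times (D t) x) =
        (N₀ ^ 2) • x) ∧
      ∀ (i : ℤ) (n : ℕ) (χ : ℤ[X]), χ ≠ 0 → (∀ ρ : ℂ, aeval ρ χ = 0 → R ρ) →
        (∀ m ∈ T.grM i n, aeval T.frobM χ m = 0) →
          ∃ B b : ℤ, B ≠ 0 ∧ ∀ m ∈ T.grM i n, B • m = b • ∑ t, T.times (D t) (T.pair (E t) m) := by
  classical
  obtain ⟨J, hJ, c, D, E, hF, hdual, hQ, hmain⟩ := hcore
  obtain ⟨N₀, D', E', hN₀, hcD, hcE, hD, hE⟩ := exists_lifts hZ hdual
  refine ⟨J, hJ, c, D', E', N₀, hN₀, hdual.le, hF.exists_eq, hcD, hcE, fun t x => ?_,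
    fun i n χ hχ hroot hkill => ?_⟩
  · have h2 := pair_times_int hZ hG hdual hD hE t t x
    rw [if_pos rfl] at h2
    exact h2
  -- the polynomials
  obtain ⟨P, hP, hPk, -⟩ := hmain n (χ.map (Int.castRingHom ℚ)) (by
    rw [Ne, Polynomial.map_eq_zero_iff (RingHom.injective_int _)]
    exact hχ) (fun ρ hρ => hroot ρ (by
      rw [aeval_def, eval₂_map] at hρ
      rw [aeval_def, ← hρ]
      rfl))
  have hμ : ((Q : ℚ)) ^ (n : ℤ) = ((((Q : ℤ) ^ n : ℤ)) : ℚ) := by
    push_cast
    rw [zpow_natCast]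
  rw [hμ, ← map_revZ] at hP
  have hrel : ∀ m ∈ T.grM i n, aeval (actZ T Z.frobZ) (revZ χ ((Q : ℤ) ^ n)) m = 0 := by
    intro m hm
    refine aeval_revZ_op (actZ T Z.frobZ) (frobL T) (T.grM i n) _ (fun m hm => hG.FM_mem hm)
      (fun m hm => ?_) χ (fun m hm => ?_) hm
    · have h1 : T.act Z.frobZ (T.frobM m) = (Q) ^ n • m := hAc.pure hm
      rw [actZ_apply, frobL_apply, h1, ← natCast_zsmul]
      push_cast
      rfl
    · rw [aeval_frobL]
      exact hkill m hm
  exact int_core hA hZ hG hAc hdual hN₀ hcD hcE hD hE P _ hP hPk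
    (T.grM i n) (fun m hm => hG.app_mem hm) hrel

/-- **Finiteness of the unramified cohomology of products.** -/
theorem unramifiedEquiv (hA : IsCorrespondence A) (hcore : HasCore R A Q S)
    {Z : IntegralData A} {T : IntTheory Z} (hT : IsUnramifiedTheory T Q)
    (hK : UnramifiedRoots T R) : UnramifiedEquiv T := by
  obtain ⟨J, hJ, c, D, E, N₀, hN₀, hcle, hex, hcD, hcE, hpair, hform⟩ :=
    exists_formula hA hcore hT.data hT.graded hT.action
  have hG := hT.graded
  obtain ⟨χ, hχ, hroot, hkill⟩ := hK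
  obtain ⟨B, b, hB, hBb⟩ := hform 4 2 χ hχ hroot hkill
  constructor
  · intro h
    obtain ⟨n, hn, hn'⟩ := exists_exponent h
    refine hT.boundedN (n * N₀ ^ 2) (mul_ne_zero hn (pow_ne_zero _ hN₀)) fun x hx => ?_
    obtain ⟨t, ht⟩ := hex 0 (Nat.zero_le _)
    have h1 : T.times (D t) x ∈ T.grM 4 2 := by
      have h2 := hG.mul_mem (hcD t) hx
      rw [ht, Nat.cast_zero, mul_zero, add_zero, add_zero] at h2
      exact h2
    rw [mul_smul, ← hpair t x, ← map_nsmul, hn' _ h1, map_zero]
  · intro h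
    obtain ⟨n, hn, hn'⟩ := exists_exponent h
    refine hT.boundedM (n * B.natAbs) (mul_ne_zero hn (Int.natAbs_ne_zero.2 hB)) fun x hx => ?_
    have h1 : ∀ t, n • T.times (D t) (T.pair (E t) x) = 0 := by
      intro t
      have h2 : T.pair (E t) x ∈ T.grN (4 - 2 * c t) (2 - c t) :=
        hG.push_mem (by have := hcle t; omega) (hcE t) hx
      rcases Nat.eq_zero_or_pos (c t) with hc | hc
      · rw [hc, Nat.cast_zero, mul_zero, sub_zero, sub_zero] at h2
        rw [← map_nsmul, hn' _ h2, map_zero]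
      · have h3 := hT.low (2 - c t) (by omega)
        rw [show 2 * (2 - (c t : ℤ)) = 4 - 2 * c t by ring] at h3
        rw [h3, AddSubgroup.mem_bot] at h2
        rw [h2, map_zero, smul_zero]
    have h4 : (n : ℤ) • (B • x) = 0 := by
      rw [hBb x hx, smul_comm, natCast_zsmul, Finset.smul_sum,
        Finset.sum_eq_zero fun t _ => h1 t, smul_zero]
    rcases Int.natAbs_eq B with hB2 | hB2
    · rw [hB2, natCast_zsmul, natCast_zsmul] at h4
      rw [mul_smul]
      exact h4
    · rw [hB2, neg_smul, smul_neg, natCast_zsmul, natCast_zsmul, neg_eq_zero] at h4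
      rw [mul_smul]
      exact h4


end

end Pool.Agent.H855.TV
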