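import Mathlib
import Pool.Agent.H855.TV.Defs
import Pool.Graph.R_pool_sql_team_seeded_843ab51a.H8EM.Defs
import Pool.Graph.R_pool_sql_team_seeded_843ab51a.H8EM.NrDefs
import Pool.Graph.R_pool_sql_team_seeded_843ab51a.V1168.EV.IntDefs

/-!
# Integral theories of products with Tate varieties: definitions

In the definitions of the library (`IntegralData`, `IntTheory` and the following ones) the Tate variety
`X` is called `A`.
-/

set_option autoImplicit false

namespace Pool.Agent.H855.TV

open Pool.Agent.Y156.L Pool.Agent.V1168.EV Pool.Agent.V1168.BB Pool.Agent.H8EM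

/-- `EtaleTimes p Ω X Q P`: for every theory `T` (étale motivic cohomology with integral coefficients)
relative to a smooth projective variety `Y` over the field with `Q` elements, with the properties
`IsEtaleTheory`, such that the Frobenius endomorphism of `Y` satisfies on each group `H^i(X × Y, ℤ(j))`,
`j ≥ 0`, a nonzero polynomial with integral coefficients all of whose complex roots come from `Ω`
(`FrobeniusRoots`), the conclusion `P` holds. -/
def EtaleTimes (p : ℕ) (Ω : Finset ℂ) (X : AbelianData ℂ) (Q : ℕ)
    (P : ∀ {Z : IntegralData X}, IntTheory Z → Prop) : Prop :=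
  ∀ (Z : IntegralData X) (T : IntTheory Z), IsEtaleTheory T Q → FrobeniusRoots T (From p Ω) → P T

/-- `WeilEtaleTimes p Ω X Q`: for every theory `T` (Weil-étale motivic cohomology) relative to a scheme
`Y` over the field with `Q` elements, with the properties `IsIntTheory`, such that the Frobenius
endomorphism of `Y` satisfies on each group `H^i(X × Y, ℤ(j))` a nonzero polynomial with integral
coefficients all of whose complex roots come from `Ω` (`IntFrom`), the conclusions `FGEquiv` and `LEquiv`
hold. -/
def WeilEtaleTimes (p : ℕ) (Ω : Finset ℂ) (X : AbelianData ℂ) (Q : ℕ) : Prop :=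
  ∀ (Z : IntegralData X) (T : IntTheory Z), IsIntTheory T Q → IntFrom T p Ω → FGEquiv T ∧ LEquiv T

/-- `UnramifiedTimes p Ω X Q`: for every theory `T` relative to a smooth projective variety `Y` over the
field with `Q` elements, with the properties `IsUnramifiedTheory`, such that the Frobenius endomorphism
of `Y` satisfies on `H^3_nr(X × Y, ℚ/ℤ(2))` a nonzero polynomial with integral coefficients all of whose
complex roots come from `Ω` (`UnramifiedRoots`), the group `H^3_nr(X × Y, ℚ/ℤ(2))` is finite if and
only if `H^3_nr(Y, ℚ/ℤ(2))` is finite. -/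
def UnramifiedTimes (p : ℕ) (Ω : Finset ℂ) (X : AbelianData ℂ) (Q : ℕ) : Prop :=
  ∀ (Z : IntegralData X) (T : IntTheory Z), IsUnramifiedTheory T Q →
    UnramifiedRoots T (From p Ω) → UnramifiedEquiv T

end Pool.Agent.H855.TV
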