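import Mathlib
import Pool.Agent.H855.TV.IntDefs
import Pool.Agent.H855.TV.Int
import Pool.Agent.H855.TV.Arith

/-!
# Integral theories of products with Tate varieties: the theorems
-/

set_option autoImplicit false

namespace Pool.Agent.H855.TV

open Pool.Agent.Y156.L Pool.Agent.V1168.EV Pool.Agent.V1168.BB Pool.Agent.H8EM

variable {p : ℕ} {Ω : Finset ℂ} {X : AbelianData ℂ} {Q : ℕ} {S : ℕ → Set X.CH}

theorem etaleTimes (hC : IsCorrespondence X) (h : HasCore (From p Ω) X Q S)
    {P : ∀ {Z : IntegralData X}, IntTheory Z → Prop}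
    (hP : ∀ {Z : IntegralData X} {T : IntTheory Z}, FGProduct T → P T) :
    EtaleTimes p Ω X Q P := fun _ _ hT hK => hP (fgProduct hC h hT hK)

theorem weilEtaleTimes (hC : IsCorrespondence X) (h : HasCore (From p Ω) X Q S) :
    WeilEtaleTimes p Ω X Q := by
  intro Z T hT hK
  have h1 := fgEquiv hC h hT hK
  exact ⟨h1, lEquiv hT.finite h1⟩

theorem unramifiedTimes (hC : IsCorrespondence X) (h : HasCore (From p Ω) X Q S) :
    UnramifiedTimes p Ω X Q := fun _ _ hT hK => unramifiedEquiv hC h hT hK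

end Pool.Agent.H855.TV
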