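import Mathlib
import Pool.Agent.H855.TV.Defs
import Pool.Graph.R_pool_sql_team_seeded_843ab51a.V1168.EV.Props
import Pool.Graph.R_pool_sql_team_seeded_843ab51a.V1168.BB.IsoDefs

/-!
# The isomorphism of Tate for products with Tate varieties: definitions

In the definitions of the library (`RelData`, `TateData` and the following ones) the Tate variety `X` is
called `A`.
-/

set_option autoImplicit false

namespace Pool.Agent.H855.TV

open Pool.Agent.Y156.L Pool.Agent.V1168.EV Pool.Agent.V1168.BB

section

variable (p : ℕ) (Ω : Finset ℂ) (X : AbelianData ℂ) (Q : ℕ)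

/-- `TateIsoTimes p Ω X Q`: for every smooth projective variety `Y` over every field `k` finitely
generated over the field with `Q` elements, with the data `V` (cycles modulo homological equivalence, and
geometric invariants in the cohomology) and the properties `IsTateTheory`, such that the Frobenius of
the field of constants, operating through `Y`, satisfies on each group `R^(2 j)(X × Y, j)` a nonzero
rational polynomial with roots that come from `Ω` (`DiagFrom`); and all `j`:

1. the group `A^j(X × Y)` is finitely generated if and only if the groups `A^(j - k)(Y)`,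
  `0 ≤ k ≤ dim X`, are;
2. `A^j ⊗ L → H^(2 j)(j)` is injective for `X × Y` if and only if it is so for `Y` in the codimensions
  `j - k`, `0 ≤ k ≤ dim X`;
3. the conjecture of Tate (`TateIsoM`) holds for `X × Y` in codimension `j` if and only if it holds
  for `Y` (`TateIsoN`) in the codimensions `j - k`, `0 ≤ k ≤ dim X`. -/
def TateIsoTimes : Prop :=
  ∀ (L : Type) [Field L] [CharZero L] (V : TateData X L), IsTateTheory V Q →
    DiagFrom p Ω V.R → ∀ j : ℤ,
      (FinGenM V j ↔ ∀ k : ℕ, k ≤ X.dim → FinGenN V (j - k)) ∧
      (TensorInjM V j ↔ ∀ k : ℕ, k ≤ X.dim → TensorInjN V (j - k)) ∧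
      (TateIsoM V Q j ↔ ∀ k : ℕ, k ≤ X.dim → TateIsoN V Q (j - k))

end

end Pool.Agent.H855.TV
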