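import Mathlib
import Pool.Agent.H855.TV.Defs
import Pool.Graph.R_pool_sql_team_seeded_843ab51a.V1168.EV.Props
import Pool.Graph.R_pool_sql_team_seeded_843ab51a.H8EM.KDefs
import Pool.Graph.R_pool_sql_team_seeded_843ab51a.H8EM.BSDefs

/-!
# Rational K-groups and Beilinson–Soulé vanishing for products with Tate varieties: definitions

In the definitions of the library (`RelData` and the following ones) the Tate variety `X` is called `A`.
-/

set_option autoImplicit false

namespace Pool.Agent.H855.TV

open Pool.Agent.Y156.L Pool.Agent.V1168.EV Pool.Agent.H8EM

section

variable (p : ℕ) (Ω : Finset ℂ) (X : AbelianData ℂ) (Q : ℕ)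

/-- `KTimes p Ω X Q`: for every theory `T` (motivic cohomology) relative to a smooth variety `U` over the
field with `Q` elements, with the formal properties (`IsRel`), pure (`IsPure`: the Frobenius endomorphism
of `X × U` acts as `Q ^ j` in weight `j`), such that the Frobenius endomorphism of `U` satisfies on each
group `H^i(X × U, j)` a nonzero rational polynomial with roots that come from `Ω` (`FrobeniusFrom`): for
all `n`, `K_n(X × U) ⊗ ℚ` has finite dimension if and only if `K_n(U) ⊗ ℚ` has. -/
def KTimes : Prop :=
  ∀ T : RelData X, IsRel Q T → T.IsPure Q → FrobeniusFrom p Ω T → KEquiv T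

/-- `VanishingTimes p Ω X Q`: for every theory `T` (motivic cohomology) relative to a smooth variety `U`
over the field with `Q` elements, with the formal properties (`IsRel`), pure (`IsPure`), with the
property `LowWeightsZero`, such that the Frobenius endomorphism of `U` satisfies on each group
`H^i(X × U, j)` a nonzero rational polynomial with roots that come from `Ω` (`FrobeniusFrom`), the
conclusion `VanishingEquiv` holds. -/
def VanishingTimes : Prop :=
  ∀ T : RelData X, IsRel Q T → T.IsPure Q → LowWeightsZero T → FrobeniusFrom p Ω T →
    VanishingEquiv T

end

end Pool.Agent.H855.TV
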