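import Mathlib
import Pool.Agent.H855.TV.KDefs
import Pool.Agent.H855.TV.Higher
import Pool.Graph.R_pool_sql_team_seeded_843ab51a.H8EM.K
import Pool.Graph.R_pool_sql_team_seeded_843ab51a.H8EM.BS

/-!
# Rational K-groups and Beilinson–Soulé vanishing for products with Tate varieties

The proofs are those of the library (`Pool.Agent.H8EM.kEquiv_of`, `Pool.Agent.H8EM.vanishing_of`).
-/

set_option autoImplicit false
set_option linter.unusedSectionVars false
set_option linter.unusedVariables false

namespace Pool.Agent.H855.TV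

open Module Polynomial Pool.Agent.Y156.L Pool.Agent.V1168.UN Pool.Agent.V1168.EV
  Pool.Agent.H8EM

section

variable {Λ : Type} [Field Λ] [CharZero Λ] {A : AbelianData Λ} {T : RelData A} {Q : ℕ}
  {J : Type} [Fintype J] {c : J → ℕ} {D E : J → A.CH}

theorem kEquiv_of (hF : ∀ k ≤ A.dim, ∃ t, c t = k) (hdual : Pool.Agent.Y156.L.IsDual A c D E)
    (hT : IsRel Q T) (hpure : T.IsPure Q)
    (hexp : ∀ (i j : ℤ) (m : T.M), T.InvM Q i j m → m = ∑ t, T.times (D t) (T.pair (E t) m)) :
    KEquiv T := by
  classical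
  have hdeg : ∀ (i j : ℤ) (m : T.M), m ∈ T.grM i j → m = ∑ t, T.times (D t) (T.pair (E t) m) :=
    fun i j m hm => hexp i j m (hpure i j m hm)
  have hpush : ∀ (n : ℕ) (j : ℤ) (t : J) (m : T.M), m ∈ T.grM (2 * j - n) j →
      T.pair (E t) m ∈ T.grN (2 * (j - c t) - n) (j - c t) := by
    intro n j t m hm
    have h1 : T.DegN (2 * j - n - 2 * c t) (j - c t) (T.push (E t) m) :=
      hT.graded.push_mem (by have := hdual.le t; omega) (hdual.right t) hm
    rw [show (2 * j - n - 2 * c t : ℤ) = 2 * (j - c t) - n by ring] at h1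
    exact h1
  intro n
  constructor
  · rintro ⟨h1, h2⟩
    obtain ⟨t, ht⟩ := hF 0 (Nat.zero_le _)
    have hmul : ∀ (j : ℤ) (x : T.N), x ∈ T.grN (2 * j - n) j →
        T.times (D t) x ∈ T.grM (2 * j - n) j := by
      intro j x hx
      have h3 : T.DegM (2 * j - n + 2 * c t) (j + c t) (T.mul (D t) x) :=
        hT.graded.mul_mem (hdual.left t) hx
      rw [ht, Nat.cast_zero, mul_zero, add_zero, add_zero] at h3
      exact h3
    have hinj : ∀ x : T.N, T.pair (E t) (T.times (D t) x) = x := by
      intro x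
      have h3 : T.pair (E t) (T.times (D t) x) = A.deg (E t * D t) • x :=
        hT.graded.push_mul _ _ _
      rw [h3, mul_comm, hdual.eq, one_smul]
    constructor
    · refine h1.subset fun j hj => ?_
      rw [Set.mem_ofPred_eq, Submodule.ne_bot_iff] at hj ⊢
      obtain ⟨x, hx, hx0⟩ := hj
      refine ⟨T.times (D t) x, hmul j x hx, fun h0 => hx0 ?_⟩
      rw [← hinj x, h0, map_zero]
    · intro j
      have := h2 j
      let ψ : T.grN (2 * j - n) j →ₗ[ℚ] T.grM (2 * j - n) j :=
        ((T.times (D t)).comp (Submodule.subtype _)).codRestrict _ fun x => hmul j x x.2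
      refine Module.Finite.of_injective ψ fun x y hxy => ?_
      have h3 : T.times (D t) (x : T.N) = T.times (D t) (y : T.N) := congrArg Subtype.val hxy
      apply Subtype.ext
      rw [← hinj x, h3, hinj y]
  · rintro ⟨h1, h2⟩
    constructor
    · refine (Set.finite_iUnion fun t : J => h1.image (fun j => j + (c t : ℤ))).subset fun j hj => ?_
      rw [Set.mem_ofPred_eq, Submodule.ne_bot_iff] at hj
      obtain ⟨m, hm, hm0⟩ := hj
      by_contra hcon
      apply hm0
      rw [hdeg _ _ m hm]
      refine Finset.sum_eq_zero fun t _ => ?_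
      have h3 : T.grN (2 * (j - c t) - n) (j - c t) = ⊥ := by
        by_contra h4
        exact hcon (Set.mem_iUnion.2 ⟨t, j - c t, h4, sub_add_cancel _ _⟩)
      have h5 := hpush n j t m hm
      rw [h3, Submodule.mem_bot] at h5
      rw [h5, map_zero]
    · intro j
      have hfin : ∀ t : J, Module.Finite ℚ (T.grN (2 * (j - c t) - n) (j - c t)) := fun t => h2 _
      let φ : T.grM (2 * j - n) j →ₗ[ℚ] ∀ t, T.grN (2 * (j - c t) - n) (j - c t) :=
        LinearMap.pi fun t =>
          ((T.pair (E t)).comp (Submodule.subtype _)).codRestrict _ fun x => hpush n j t x x.2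
      refine Module.Finite.of_injective φ fun x y hxy => ?_
      apply Subtype.ext
      rw [hdeg _ _ _ x.2, hdeg _ _ _ y.2]
      refine Finset.sum_congr rfl fun t _ => ?_
      have h3 : T.pair (E t) (x : T.M) = T.pair (E t) (y : T.M) :=
        congrArg Subtype.val (congrFun hxy t)
      rw [h3]

theorem vanishing_of (hF : ∀ k ≤ A.dim, ∃ t, c t = k) (hdual : Pool.Agent.Y156.L.IsDual A c D E)
    (hT : IsRel Q T) (hpure : T.IsPure Q) (hlow : LowWeightsZero T)
    (hexp : ∀ (i j : ℤ) (m : T.M), T.InvM Q i j m → m = ∑ t, T.times (D t) (T.pair (E t) m)) :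
    VanishingEquiv T := by
  classical
  have hdown : ∀ (i j : ℤ) (t : J), T.grM (i + 2 * c t) (j + c t) = ⊥ → T.grN i j = ⊥ := by
    intro i j t h
    rw [Submodule.eq_bot_iff]
    intro x hx
    have h1 : T.DegM (i + 2 * c t) (j + c t) (T.mul (D t) x) :=
      hT.graded.mul_mem (hdual.left t) hx
    have h2 : T.times (D t) x ∈ T.grM (i + 2 * c t) (j + c t) := h1
    rw [h, Submodule.mem_bot] at h2
    have h3 : T.pair (E t) (T.times (D t) x) = A.deg (E t * D t) • x :=
      hT.graded.push_mul _ _ _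
    rw [h2, map_zero, mul_comm, hdual.eq, one_smul] at h3
    exact h3.symm
  have hup : ∀ (i j : ℤ), (∀ t, T.grN (i - 2 * c t) (j - c t) = ⊥) → T.grM i j = ⊥ := by
    intro i j h
    rw [Submodule.eq_bot_iff]
    intro m hm
    rw [hexp i j m (hpure i j m hm)]
    refine Finset.sum_eq_zero fun t _ => ?_
    have h1 : T.DegN (i - 2 * c t) (j - c t) (T.push (E t) m) :=
      hT.graded.push_mem (by have := hdual.le t; omega) (hdual.right t) hm
    have h2 : T.pair (E t) m ∈ T.grN (i - 2 * c t) (j - c t) := h1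
    rw [h t, Submodule.mem_bot] at h2
    rw [h2, map_zero]
  have h0 : ∀ n : ℕ, 0 < n → ((∀ i : ℤ, i ≤ 0 → T.grM i n = ⊥) ↔
      ∀ k : ℕ, k ≤ A.dim → k < n → ∀ i : ℤ, i ≤ -2 * k → T.grN i (n - k) = ⊥) := by
    intro n hn
    constructor
    · intro h k hk hkn i hi
      obtain ⟨t, ht⟩ := hF k hk
      refine hdown i (n - k) t ?_
      rw [ht, sub_add_cancel]
      exact h _ (by linarith)
    · intro h i hi
      refine hup i n fun t => ?_
      rcases lt_trichotomy (c t) n with hc | hc | hc
      · exact h (c t) (hdual.le t) hc _ (by linarith)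
      · refine hlow _ _ (Or.inr ⟨?_, ?_⟩)
        · rw [hc, sub_self]
        · have : (1 : ℤ) ≤ c t := by rw [hc]; exact_mod_cast hn
          linarith
      · refine hlow _ _ (Or.inl ?_)
        have : (n : ℤ) < c t := by exact_mod_cast hc
        linarith
  refine ⟨h0, ?_, ?_⟩
  · intro h n hn i hi
    have h1 := (h0 n hn).1 (h n hn) 0 (Nat.zero_le _) hn i (by
      rw [Nat.cast_zero, mul_zero]
      exact hi)
    rwa [Nat.cast_zero, sub_zero] at h1
  · intro h n hn
    refine (h0 n hn).2 fun k hk hkn i hi => ?_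
    have h1 := h (n - k) (by omega) i (by
      have : (0 : ℤ) ≤ k := Int.natCast_nonneg k
      linarith)
    rwa [Nat.cast_sub hkn.le] at h1

end

variable {p : ℕ} {Ω : Finset ℂ} {X : AbelianData ℂ} {Q : ℕ} {S : ℕ → Set X.CH}

theorem kTimes (h : HasClasses p Ω X Q S) : KTimes p Ω X Q := by
  intro T hT hpure hK
  obtain ⟨J, hJ, c, D, E', hF, hdual, hQ, hmain⟩ := h
  exact kEquiv_of hF.exists_eq hdual hT hpure (hmain T hT hK).1

theorem vanishingTimes (h : HasClasses p Ω X Q S) : VanishingTimes p Ω X Q := by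
  intro T hT hpure hlow hK
  obtain ⟨J, hJ, c, D, E', hF, hdual, hQ, hmain⟩ := h
  exact vanishing_of hF.exists_eq hdual hT hpure hlow (hmain T hT hK).1

end Pool.Agent.H855.TV
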