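import Mathlib
import Pool.Agent.H855.TV.Defs
import Pool.Graph.R_pool_sql_team_seeded_843ab51a.V1168.EV.SingDefs

/-!
# The conjecture of Tate for singular and open varieties: definitions

In the definitions of the library (`RelData`, `SpanData`, `TateData`, `InvariantN` and the following
ones) the Tate variety `X` is called `A`, and the scheme `U` of finite type is called `Y` or `X`.
-/

set_option autoImplicit false

namespace Pool.Agent.H855.TV

open Pool.Agent.Y156.L Pool.Agent.V1168.EV Pool.Agent.V1168.BB

section

variable (p : ℕ) (Ω : Finset ℂ) (X : AbelianData ℂ) (Q : ℕ) (S : ℕ → Set X.CH)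

/-- `TateHomologyTimes p Ω X Q S`: there are finitely many cycles `D t` in `S (c t)` which give a basis of
the Tate classes on `X`, such that for every scheme `U` of finite type over a field `k` finitely generated
over the field with `Q` elements (singular, open), with the data `V` and the properties `IsSpanTheory`,
such that the Frobenius (through `U`) satisfies on each group `R^(2 c)(X × U, c)` a nonzero rational
polynomial with roots from `Ω` (`DiagFrom`), and all `j`:

1. every Galois invariant element of `H_(2 j)(X × U, ℚ_ℓ(j))` is in a unique way the sum of the products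
  of the `D t` with Galois invariant elements of the homology of `U` in the dimensions
  `j - (dim X - c t)`;
2. the cycle class map of `X × U` in dimension `j` is onto the invariants if and only if those of
  `U` in the dimensions `j - k`, `0 ≤ k ≤ dim X`, are. -/
def TateHomologyTimes : Prop :=
  ∃ (J : Type) (_ : Fintype J) (c : J → ℕ) (D : J → X.CH), IsTateBasis X Q S c D ∧
    ∀ (L : Type) [Field L] (V : SpanData X L), IsSpanTheory V Q → DiagFrom p Ω V.R →
      ∀ e j : ℤ,
        (∀ w, InvariantM V Q e j w → ∃! z : J → V.R.N,
          (∀ t, InvariantN V Q e (j - (X.dim - c t)) (z t)) ∧ w = ∑ t, V.R.mul (D t) (z t)) ∧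
        (SurjectiveM V Q e j ↔ ∀ k : ℕ, k ≤ X.dim → SurjectiveN V Q e (j - k))

/-- `BijectiveHomologyTimes p Ω X Q`: the same for integral classes: for every scheme `U` of finite type
over a field `k` finitely generated over the field with `Q` elements (singular, open), with the data `V`
(cycles modulo homological equivalence, and geometric invariants in the homology) and the properties
`IsTateTheory`, with Frobenius eigenvalues from `Ω` (`DiagFrom`), and all `j`: the group `B_j(X × U)` is
finitely generated if and only if the `B_(j - k)(U)`, `0 ≤ k ≤ dim X`, are; `B_j(X × U) ⊗ ℚ_ℓ` injects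
into the homology if and only if the `B_(j - k)(U) ⊗ ℚ_ℓ` do; and statement (b) holds for `X × U` in
dimension `j` if and only if it holds for `U` in the dimensions `j - k`. -/
def BijectiveHomologyTimes : Prop :=
  ∀ (L : Type) [Field L] [CharZero L] (V : TateData X L), IsTateTheory V Q →
    DiagFrom p Ω V.R → ∀ e j : ℤ,
      (FinGenDimM V e j ↔ ∀ k : ℕ, k ≤ X.dim → FinGenDimN V e (j - k)) ∧
      (InjectiveDimM V e j ↔ ∀ k : ℕ, k ≤ X.dim → InjectiveDimN V e (j - k)) ∧
      (BijectiveDimM V Q e j ↔ ∀ k : ℕ, k ≤ X.dim → BijectiveDimN V Q e (j - k))

end

end Pool.Agent.H855.TV
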