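import Mathlib
import Pool.Agent.H855.TV.Defs
import Pool.Graph.R_pool_sql_team_seeded_843ab51a.V1168.EV.SpanDefs

/-!
# The equality of Tate for products with Tate varieties: definitions

In the definitions of the library (`RelData`, `SpanData` and the following ones) the Tate variety `X` is
called `A`.
-/

set_option autoImplicit false

namespace Pool.Agent.H855.TV

open Pool.Agent.Y156.L Pool.Agent.V1168.EV Pool.Agent.V1168.BB

section

variable (p : ℕ) (Ω : Finset ℂ) (X : AbelianData ℂ) (Q : ℕ) (S : ℕ → Set X.CH)

/-- `TateSpanTimes p Ω X Q S`: there are finitely many cycles `D t` in `S (c t)` which give a basis of the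
Tate classes on `X`, such that for every smooth projective variety `Y` over the field with `Q` elements,
with the data `V` and the properties `IsSpanTheory`, such that the Frobenius endomorphism of `Y`
satisfies on each group `H^(2 j)(X × Y)(j)` a nonzero rational polynomial with roots that come from `Ω`
(`DiagFrom`), and all `j`:

1. every element of `H^(2 j)(X × Y)(j)` fixed by Frobenius is in a unique way the sum of the products
  of the `D t` with elements of `H^(2 (j - c t))(Y)(j - c t)` fixed by Frobenius;
2. the conjecture of Tate holds for `X × Y` in codimension `j` if and only if it holds for `Y` in the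
  codimensions `j - k`, `0 ≤ k ≤ dim X`. -/
def TateSpanTimes : Prop :=
  ∃ (J : Type) (_ : Fintype J) (c : J → ℕ) (D : J → X.CH), IsTateBasis X Q S c D ∧
    ∀ (L : Type) [Field L] (V : SpanData X L), IsSpanTheory V Q → DiagFrom p Ω V.R → ∀ j : ℤ,
      (∀ w, V.R.InvM Q (2 * j) j w → ∃! z : J → V.R.N,
        (∀ t, V.R.InvN Q (2 * (j - c t)) (j - c t) (z t)) ∧ w = ∑ t, V.R.mul (D t) (z t)) ∧
      (TateM V Q j ↔ ∀ k : ℕ, k ≤ X.dim → TateN V Q (j - k))

end

end Pool.Agent.H855.TV
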