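import Mathlib
import Pool.Agent.H855.TV.SpanDefs
import Pool.Agent.H855.TV.Higher
import Pool.Graph.R_pool_sql_team_seeded_843ab51a.V1168.BB.Iso

/-!
# The equality of Tate for products with Tate varieties
-/

set_option autoImplicit false
set_option linter.unusedSectionVars false
set_option linter.unusedVariables false

namespace Pool.Agent.H855.TV

open Module Polynomial Pool.Agent.Y156.L Pool.Agent.V1168.UN Pool.Agent.V1168.EV
  Pool.Agent.V1168.BB

variable {p : ℕ} {Ω : Finset ℂ} {A : AbelianData ℂ} {Q : ℕ} {S : ℕ → Set A.CH}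

/-- **The conjecture of Tate, for products.** -/
theorem tateSpanTimes (h : HasClasses p Ω A Q S) : TateSpanTimes p Ω A Q S := by
  classical
  obtain ⟨J, hJ, c, D, E, hF, hdual, hQ, hmain⟩ := h
  refine ⟨J, hJ, c, D, hF, fun L _ V hV hK j => ?_⟩
  obtain ⟨T, R, ρ⟩ := V
  obtain ⟨hT, hR', hρ, hL⟩ := hV
  have hR1 := isRel_diag hR'
  have hexpR : ∀ m : R.M, R.InvM Q (2 * j) j m →
      m = ∑ t, R.times (D t) (R.pair (E t) m) := by
    intro m hm
    exact (hmain _ hR1 (from_diag hK)).1 (2 * j) j m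
      ⟨(degM_diag (T := R) j m).2 hm.1, hm.2⟩
  have hPa : ∀ t x, R.InvN Q (2 * (j - c t)) (j - c t) x →
      R.InvM Q (2 * j) j (R.times (D t) x) := by
    intro t x hx
    have h1 := inv_times hQ hR' (hdual.left t) hx
    rw [show 2 * (j - (c t : ℤ)) + 2 * c t = 2 * j by ring, sub_add_cancel] at h1
    exact h1
  have hPb : ∀ t x, R.InvM Q (2 * j) j x →
      R.InvN Q (2 * (j - c t)) (j - c t) (R.pair (E t) x) := by
    intro t x hx
    have h1 := inv_pair hQ hR' hdual hx (hexpR x hx) t
    rw [show 2 * (j - (c t : ℤ)) = 2 * j - 2 * c t by ring]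
    exact h1
  have htimes : ∀ t x, x ∈ spanN (⟨T, R, ρ⟩ : SpanData A L) (j - c t) →
      R.times (D t) x ∈ spanM (⟨T, R, ρ⟩ : SpanData A L) j := by
    intro t x hx
    let F : R.N →ₗ[L] R.M :=
      { toFun := fun n => R.times (D t) n
        map_add' := fun x y => map_add _ x y
        map_smul' := fun l x => hL.mul_smul (D t) l x }
    have h1 : spanN (⟨T, R, ρ⟩ : SpanData A L) (j - c t) ≤
        (spanM (⟨T, R, ρ⟩ : SpanData A L) j).comap F := by
      refine Submodule.span_le.2 ?_
      rintro _ ⟨n, hn, rfl⟩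
      refine Submodule.subset_span ⟨T.mul (D t) n, ?_, hρ.mul (D t) n⟩
      have h2 := hT.times_mem (hdual.left t) hn
      rw [show 2 * (j - (c t : ℤ)) + 2 * c t = 2 * j by ring, sub_add_cancel] at h2
      exact h2
    exact h1 hx
  have hpair : ∀ t x, x ∈ spanM (⟨T, R, ρ⟩ : SpanData A L) j →
      R.pair (E t) x ∈ spanN (⟨T, R, ρ⟩ : SpanData A L) (j - c t) := by
    intro t x hx
    let F : R.M →ₗ[L] R.N :=
      { toFun := fun n => R.pair (E t) n
        map_add' := fun x y => map_add _ x y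
        map_smul' := fun l x => hL.push_smul (E t) l x }
    have h1 : spanM (⟨T, R, ρ⟩ : SpanData A L) j ≤
        (spanN (⟨T, R, ρ⟩ : SpanData A L) (j - c t)).comap F := by
      refine Submodule.span_le.2 ?_
      rintro _ ⟨m, hm, rfl⟩
      refine Submodule.subset_span ⟨T.push (E t) m, ?_, hρ.push (E t) m⟩
      have h2 := hT.pair_mem (c := c t) (by have := hdual.le t; omega) (hdual.right t) hm
      rw [show 2 * (j - (c t : ℤ)) = 2 * j - 2 * c t by ring]
      exact h2
    exact h1 hx
  refine ⟨fun w hw => ?_, ?_⟩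
  · refine ⟨fun t => R.pair (E t) w, ⟨fun t => hPb t w hw, hexpR w hw⟩, ?_⟩
    rintro z ⟨-, hz⟩
    funext t
    rw [hz]
    exact (pair_sum hR' hdual t z).symm
  · constructor
    · intro h k hk w hw
      obtain ⟨t, rfl⟩ := hF.exists_eq k hk
      have h1 := hpair t _ (h _ (hPa t w hw))
      rw [dualpair hR' hdual t t w, if_pos rfl] at h1
      exact h1
    · intro h w hw
      have h1 := hexpR w hw
      change w ∈ spanM (⟨T, R, ρ⟩ : SpanData A L) j
      rw [h1]
      exact Submodule.sum_mem _ fun t _ => htimes t _ (h _ (hdual.le t) _ (hPb t w hw))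


end Pool.Agent.H855.TV
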