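import Mathlib
import Pool.Agent.H855.TV.SingDefs
import Pool.Agent.H855.TV.Span
import Pool.Agent.H855.TV.Iso
import Pool.Graph.R_pool_sql_team_seeded_843ab51a.V1168.EV.Sing

/-!
# The conjecture of Tate for singular and open varieties: proofs
-/

set_option autoImplicit false

namespace Pool.Agent.H855.TV

open Pool.Agent.Y156.L Pool.Agent.V1168.EV Pool.Agent.V1168.BB

variable {p : ℕ} {Ω : Finset ℂ} {X : AbelianData ℂ} {Q : ℕ} {S : ℕ → Set X.CH}

theorem tateHomologyTimes (h : HasClasses p Ω X Q S) : TateHomologyTimes p Ω X Q S := by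
  obtain ⟨J, hJ, c, D, hD, h⟩ := tateSpanTimes h
  refine ⟨J, hJ, c, D, hD, fun L _ V hV hd e j => ?_⟩
  obtain ⟨h1, h2⟩ := h L V hV hd (e + X.dim - j)
  refine ⟨fun w hw => ?_, ?_⟩
  · obtain ⟨z, ⟨hz1, hz2⟩, hz3⟩ := h1 w hw
    have he : ∀ t, e - (j - ((X.dim : ℤ) - c t)) = e + X.dim - j - c t := fun t => by ring
    refine ⟨z, ⟨fun t => ?_, hz2⟩, fun y hy => hz3 y ⟨fun t => ?_, hy.2⟩⟩
    · unfold InvariantN
      rw [he t]
      exact hz1 t
    · have h3 := hy.1 t
      unfold InvariantN at h3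
      rw [he t] at h3
      exact h3
  · exact h2.trans (reindex (P := fun c => TateN V Q c))

theorem bijectiveHomologyTimes (h : HasClasses p Ω X Q S) : BijectiveHomologyTimes p Ω X Q := by
  intro L _ _ V hV hd e j
  obtain ⟨h1, h2, h3⟩ := tateIsoTimes h L V hV hd (e + X.dim - j)
  exact ⟨h1.trans (reindex (P := fun c => FinGenN V c)),
    h2.trans (reindex (P := fun c => TensorInjN V c)),
    h3.trans (reindex (P := fun c => TateIsoN V Q c))⟩

theorem singularTateTimes (h : HasClasses p Ω X Q S) :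
    TateHomologyTimes p Ω X Q S ∧ BijectiveHomologyTimes p Ω X Q :=
  ⟨tateHomologyTimes h, bijectiveHomologyTimes h⟩

end Pool.Agent.H855.TV
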